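import Pool.Agent.Lib.MP_95b053_co.SAN.Spec

/-!
# MP_95b053_co, project SAN, module Cha: the lemma of Chang
-/

set_option autoImplicit false

namespace Pool.Agent.SAN

open Finset

private theorem Cha_empty {N : ℕ} : Dis (∅ : Finset (ZMod N)) := by
  intro e _ _ x hx
  exact absurd hx (Finset.notMem_empty x)

/-- a maximal dissociated subset spans -/
private theorem Cha_span {N : ℕ} [NeZero N] (L : Finset (ZMod N)) (r : ZMod N) (hL : Dis L)
    (hmax : r ∉ L → ¬ Dis (insert r L)) :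
    ∃ e : ZMod N → ℤ, (∀ x, |e x| ≤ 1) ∧ r = ∑ x ∈ L, e x • x := by
  classical
  by_cases hr : r ∈ L
  · refine ⟨fun x => if x = r then 1 else 0, fun x => ?_, ?_⟩
    · dsimp only
      split_ifs <;> simp
    · rw [Finset.sum_eq_single r]
      · dsimp only
        rw [if_pos rfl, one_smul]
      · intro b _ hb
        dsimp only
        rw [if_neg hb, zero_smul]
      · intro h
        exact absurd hr h
  · have h := hmax hr
    unfold Dis at h
    push Not at h
    obtain ⟨e, he, hs, x0, hx0, hne⟩ := h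
    rw [Finset.sum_insert hr] at hs
    have her : e r ≠ 0 := by
      intro h0
      rw [h0, zero_smul, zero_add] at hs
      have hz := hL e he hs
      rcases Finset.mem_insert.1 hx0 with h1 | h1
      · rw [h1] at hne
        exact hne h0
      · exact hne (hz x0 h1)
    have h1 := he r
    rw [abs_le] at h1
    have hcase : e r = 1 ∨ e r = -1 := by omega
    rcases hcase with h2 | h2
    · refine ⟨fun x => - e x, fun x => by rw [abs_neg]; exact he x, ?_⟩
      rw [h2, one_smul] at hs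
      simp only [neg_smul, Finset.sum_neg_distrib]
      exact eq_neg_of_add_eq_zero_left hs
    · refine ⟨e, he, ?_⟩
      rw [h2, neg_smul, one_smul, neg_add_eq_zero] at hs
      exact hs

private theorem Cha_conj (z : ℂ) : (starRingEnd ℂ) z / (‖z‖ : ℂ) * z = (‖z‖ : ℂ) := by
  rw [div_mul_eq_mul_div, Complex.conj_mul', pow_two, mul_self_div_self]

private theorem Cha_norm (z : ℂ) : ‖(starRingEnd ℂ) z / (‖z‖ : ℂ)‖ ≤ 1 := by
  rw [norm_div, RCLike.norm_conj, Complex.norm_real, norm_norm]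
  exact div_self_le_one _

/-- the size of a dissociated set of large frequencies -/
private theorem Cha_size (h1 : S_Cvx) (h2 : S_Dsc) {N : ℕ} [NeZero N] (T L : Finset (ZMod N))
    (M : ℕ) (hT : T.Nonempty) (hM : (N : ℝ) ≤ 2 ^ M * T.card) (hL : Dis L)
    (hS : ∀ y ∈ L, (T.card : ℝ) / 2 ≤ ‖es T y‖) : L.card ≤ 6 * M := by
  classical
  have hTc : (0 : ℝ) < T.card := by exact_mod_cast hT.card_pos
  obtain ⟨c, hc⟩ : ∃ c : ZMod N → ℂ, ∀ y, c y = (starRingEnd ℂ) (es T y) / (‖es T y‖ : ℂ) :=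
    ⟨_, fun y => rfl⟩
  obtain ⟨R, hR⟩ : ∃ R : ZMod N → ZMod N → ℝ, ∀ x y,
    R x y = (c y * (ZMod.stdAddChar (y * x) : ℂ)).re := ⟨_, fun x y => rfl⟩
  have hRa : ∀ x y, |R x y| ≤ 1 := by
    intro x y
    rw [hR]
    refine (Complex.abs_re_le_norm _).trans ?_
    rw [norm_mul, AddChar.norm_apply, mul_one, hc]
    exact Cha_norm _
  have hsum : (L.card : ℝ) * T.card / 2 ≤ ∑ x ∈ T, ∑ y ∈ L, R x y := by
    rw [Finset.sum_comm]
    have h3 : ∀ y ∈ L, (T.card : ℝ) / 2 ≤ ∑ x ∈ T, R x y := by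
      intro y hy
      have e1 : ∑ x ∈ T, R x y = ‖es T y‖ := by
        have e2 : ∑ x ∈ T, R x y = (∑ x ∈ T, c y * (ZMod.stdAddChar (y * x) : ℂ)).re := by
          rw [Complex.re_sum]
          exact Finset.sum_congr rfl fun x _ => hR x y
        have e3 : ∑ x ∈ T, (ZMod.stdAddChar (y * x) : ℂ) = es T y := rfl
        rw [e2, ← Finset.mul_sum, e3, hc, Cha_conj, Complex.ofReal_re]
      rw [e1]
      exact hS y hy
    calc (L.card : ℝ) * T.card / 2 = ∑ y ∈ L, (T.card : ℝ) / 2 := by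
          rw [Finset.sum_const, nsmul_eq_mul]
          ring
      _ ≤ _ := Finset.sum_le_sum h3
  have hlow : (T.card : ℝ) * Real.exp ((L.card : ℝ) / 4) ≤
      ∑ x ∈ T, Real.exp ((∑ y ∈ L, R x y) / 2) := by
    have h3 : ∀ x ∈ T, Real.exp ((L.card : ℝ) / 4) *
        (1 + (∑ y ∈ L, R x y) / 2 - (L.card : ℝ) / 4) ≤ Real.exp ((∑ y ∈ L, R x y) / 2) := by
      intro x _
      have h4 := Real.add_one_le_exp ((∑ y ∈ L, R x y) / 2 - (L.card : ℝ) / 4)
      have h5 : Real.exp ((∑ y ∈ L, R x y) / 2) = Real.exp ((L.card : ℝ) / 4) *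
          Real.exp ((∑ y ∈ L, R x y) / 2 - (L.card : ℝ) / 4) := by
        rw [← Real.exp_add]
        congr 1
        ring
      rw [h5]
      refine mul_le_mul_of_nonneg_left ?_ (Real.exp_pos _).le
      linarith
    refine le_trans ?_ (Finset.sum_le_sum h3)
    rw [← Finset.mul_sum]
    have h6 : ∑ x ∈ T, (1 + (∑ y ∈ L, R x y) / 2 - (L.card : ℝ) / 4) =
        T.card * (1 - (L.card : ℝ) / 4) + (∑ x ∈ T, ∑ y ∈ L, R x y) / 2 := by
      have h7 : ∀ x ∈ T, (1 + (∑ y ∈ L, R x y) / 2 - (L.card : ℝ) / 4) =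
          (1 - (L.card : ℝ) / 4) + (∑ y ∈ L, R x y) / 2 := fun x _ => by ring
      rw [Finset.sum_congr rfl h7, Finset.sum_add_distrib, Finset.sum_const, nsmul_eq_mul,
        Finset.sum_div]
    rw [h6, mul_comm]
    refine mul_le_mul_of_nonneg_left ?_ (Real.exp_pos _).le
    nlinarith
  have hup : ∑ x ∈ T, Real.exp ((∑ y ∈ L, R x y) / 2) ≤
      N * Real.exp ((L.card : ℝ) / 8) := by
    have h3 : ∀ x, Real.exp ((∑ y ∈ L, R x y) / 2) ≤
        ∏ y ∈ L, (Real.cosh (1 / 2) + Real.sinh (1 / 2) *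
          (c y * (ZMod.stdAddChar (y * x) : ℂ)).re) := by
      intro x
      rw [Finset.sum_div, Real.exp_sum]
      refine Finset.prod_le_prod (fun y _ => (Real.exp_pos _).le) fun y _ => ?_
      have h4 := h1 (1 / 2) (R x y) (hRa x y)
      rw [← hR]
      have h5 : R x y / 2 = 1 / 2 * R x y := by ring
      rw [h5]
      linarith
    have h4 : ∑ x ∈ T, Real.exp ((∑ y ∈ L, R x y) / 2) ≤
        ∑ x : ZMod N, ∏ y ∈ L, (Real.cosh (1 / 2) + Real.sinh (1 / 2) *
          (c y * (ZMod.stdAddChar (y * x) : ℂ)).re) := by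
      refine (Finset.sum_le_sum fun x _ => h3 x).trans ?_
      refine Finset.sum_le_sum_of_subset_of_nonneg (Finset.subset_univ _) fun x _ _ => ?_
      exact (Real.exp_pos _).le.trans (h3 x)
    refine h4.trans ?_
    rw [h2 N L c _ _ hL]
    refine mul_le_mul_of_nonneg_left ?_ (Nat.cast_nonneg _)
    have h5 := Real.cosh_le_exp_half_sq (1 / 2)
    calc Real.cosh (1 / 2) ^ L.card ≤ Real.exp ((1 / 2) ^ 2 / 2) ^ L.card :=
          pow_le_pow_left₀ (Real.cosh_pos _).le h5 _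
      _ = Real.exp ((L.card : ℝ) / 8) := by
          rw [← Real.exp_nat_mul]
          congr 1
          ring
  have h3 : (T.card : ℝ) * Real.exp ((L.card : ℝ) / 4) ≤
      2 ^ M * T.card * Real.exp ((L.card : ℝ) / 8) :=
    (hlow.trans hup).trans (mul_le_mul_of_nonneg_right hM (Real.exp_pos _).le)
  have h4 : Real.exp ((L.card : ℝ) / 4) =
      Real.exp ((L.card : ℝ) / 8) * Real.exp ((L.card : ℝ) / 8) := by
    rw [← Real.exp_add]
    congr 1
    ring
  have h5 : Real.exp ((L.card : ℝ) / 8) ≤ 2 ^ M := by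
    rw [h4] at h3
    have h6 := Real.exp_pos ((L.card : ℝ) / 8)
    have h7 : ((T.card : ℝ) * Real.exp ((L.card : ℝ) / 8)) * Real.exp ((L.card : ℝ) / 8) ≤
        ((T.card : ℝ) * Real.exp ((L.card : ℝ) / 8)) * 2 ^ M := by linarith
    exact le_of_mul_le_mul_left h7 (mul_pos hTc h6)
  have h6 : (L.card : ℝ) / 8 ≤ M * Real.log 2 := by
    have h7 : (2 : ℝ) ^ M = Real.exp (M * Real.log 2) := by
      rw [Real.exp_nat_mul, Real.exp_log (by norm_num)]
    rw [h7] at h5
    exact Real.exp_le_exp.1 h5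
  have h7 := Real.log_two_lt_d9
  have h8 : (L.card : ℝ) ≤ 6 * M := by
    have h9 : (M : ℝ) * Real.log 2 ≤ M * 0.6931471808 :=
      mul_le_mul_of_nonneg_left h7.le (Nat.cast_nonneg _)
    have h10 : (0 : ℝ) ≤ M := Nat.cast_nonneg _
    linarith
  exact_mod_cast h8

theorem rCha (h1 : S_Cvx) (h2 : S_Dsc) : S_Cha := by
  classical
  intro N _ T M hT hM
  obtain ⟨F, hF⟩ : ∃ F : Finset (Finset (ZMod N)), ∀ L, L ∈ F ↔
      (Dis L ∧ ∀ y ∈ L, (T.card : ℝ) / 2 ≤ ‖es T y‖) := by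
    refine ⟨Finset.univ.filter fun L => (Dis L ∧ ∀ y ∈ L, (T.card : ℝ) / 2 ≤ ‖es T y‖), ?_⟩
    intro L
    rw [Finset.mem_filter]
    exact ⟨fun h => h.2, fun h => ⟨Finset.mem_univ _, h⟩⟩
  have hne : F.Nonempty :=
    ⟨∅, (hF _).2 ⟨Cha_empty, fun y hy => absurd hy (Finset.notMem_empty y)⟩⟩
  obtain ⟨L, hLF, hmax⟩ := Finset.exists_max_image F (fun L => L.card) hne
  have hL := (hF L).1 hLF
  refine ⟨L, Cha_size h1 h2 T L M hT hM hL.1 hL.2, fun r hr => ?_⟩
  refine Cha_span L r hL.1 fun hrL hD => ?_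
  have h3 : insert r L ∈ F := by
    refine (hF _).2 ⟨hD, fun y hy => ?_⟩
    rcases Finset.mem_insert.1 hy with h | h
    · rw [h]
      exact hr
    · exact hL.2 y h
  have h4 := hmax _ h3
  rw [Finset.card_insert_of_notMem hrL] at h4
  omega

end Pool.Agent.SAN
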