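import Pool.Agent.Lib.MP_95b053_co.SAN.Spec

/-!
# MP_95b053_co, project SAN, module CrS: almost periods of a mean (Croot, Sisask), pigeonhole
-/

set_option autoImplicit false

namespace Pool.Agent.SAN

open Finset

private noncomputable def CrS_Q {N l : ℕ} [NeZero N] (E : Finset (ZMod N)) (f : ZMod N → ℝ) (m : ℕ)
    (a : Fin l → ZMod N) : ℝ :=
  ∑ x : ZMod N, ((∑ i, f (x + a i)) / l - av E f x) ^ (2 * m)

private theorem CrS_Q_nonneg {N l : ℕ} [NeZero N] (E : Finset (ZMod N)) (f : ZMod N → ℝ) (m : ℕ)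
    (a : Fin l → ZMod N) : 0 ≤ CrS_Q E f m a :=
  Finset.sum_nonneg fun _ _ => (even_two_mul m).pow_nonneg _

/-- Markov: at least half of the tuples are good. -/
private theorem CrS_half {ι : Type} (Ω : Finset ι) (Q : ι → ℝ) (B : ℝ) (hB : 0 < B)
    (hQ : ∀ a, 0 ≤ Q a) (hs : ∑ a ∈ Ω, Q a ≤ B / 2 * Ω.card) :
    (Ω.card : ℝ) ≤ 2 * (Ω.filter fun a => Q a ≤ B).card := by
  classical
  have h1 : ((Ω.filter fun a => ¬ Q a ≤ B).card : ℝ) * B ≤ B / 2 * Ω.card := by
    calc ((Ω.filter fun a => ¬ Q a ≤ B).card : ℝ) * B = ∑ _a ∈ Ω.filter fun a => ¬ Q a ≤ B, B := by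
          rw [Finset.sum_const, nsmul_eq_mul]
      _ ≤ ∑ a ∈ Ω.filter fun a => ¬ Q a ≤ B, Q a :=
          Finset.sum_le_sum fun a ha => (not_le.1 (Finset.mem_filter.1 ha).2).le
      _ ≤ ∑ a ∈ Ω, Q a := Finset.sum_le_sum_of_subset_of_nonneg (Finset.filter_subset _ _)
          fun a _ _ => hQ a
      _ ≤ _ := hs
  have h2 : ((Ω.filter fun a => Q a ≤ B).card : ℝ) + (Ω.filter fun a => ¬ Q a ≤ B).card = Ω.card := by
    exact_mod_cast Finset.card_filter_add_card_filter_not (s := Ω) (fun a => Q a ≤ B)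
  have h3 : ((Ω.filter fun a => ¬ Q a ≤ B).card : ℝ) ≤ Ω.card / 2 := by
    by_contra hc
    rw [not_le] at hc
    have := mul_lt_mul_of_pos_right hc hB
    linarith
  linarith

/-- Pigeonhole: some translate. -/
private theorem CrS_pig {N l : ℕ} [NeZero N] (L : Finset (Fin l → ZMod N)) :
    ∃ z : Fin l → ZMod N, L.card * N ≤
      ((univ : Finset (ZMod N)).filter fun t => (fun i => z i - t) ∈ L).card * N ^ l := by
  classical
  have h1 : ∑ z : Fin l → ZMod N, ((univ : Finset (ZMod N)).filter fun t => (fun i => z i - t) ∈ L).card =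
      N * L.card := by
    simp only [Finset.card_filter]
    rw [Finset.sum_comm]
    have h2 : ∀ t : ZMod N, ∑ z : Fin l → ZMod N, (if (fun i => z i - t) ∈ L then 1 else 0) = L.card := by
      intro t
      have h3 : ∑ z : Fin l → ZMod N, (if (fun i => z i - t) ∈ L then 1 else 0) =
          ∑ z : Fin l → ZMod N, (if z ∈ L then 1 else 0) :=
        Equiv.sum_comp (Equiv.subRight (fun _ : Fin l => t)) (fun z => if z ∈ L then 1 else 0)
      rw [h3, ← Finset.card_filter]
      congr 1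
      ext z
      simp
    rw [Finset.sum_congr rfl fun t _ => h2 t, Finset.sum_const, Finset.card_univ, ZMod.card, smul_eq_mul]
  have h4 : ∑ _z : Fin l → ZMod N, L.card * N ≤ ∑ z : Fin l → ZMod N,
      ((univ : Finset (ZMod N)).filter fun t => (fun i => z i - t) ∈ L).card * N ^ l := by
    rw [← Finset.sum_mul, ← Finset.sum_mul, h1, Finset.sum_const, Finset.card_univ, Fintype.card_fun, ZMod.card,
      Fintype.card_fin, smul_eq_mul]
    apply le_of_eq
    ring
  obtain ⟨z, -, hz⟩ := Finset.exists_le_of_sum_le Finset.univ_nonempty h4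
  exact ⟨z, hz⟩

private theorem CrS_shift {N l : ℕ} [NeZero N] (E : Finset (ZMod N)) (f : ZMod N → ℝ) (m : ℕ)
    (z : Fin l → ZMod N) (t : ZMod N) :
    CrS_Q E f m (fun i => z i - t) =
      ∑ x : ZMod N, ((∑ i, f (x + z i)) / l - av E f (x + t)) ^ (2 * m) := by
  unfold CrS_Q
  rw [← Equiv.sum_comp (Equiv.addRight t)]
  refine Finset.sum_congr rfl fun x _ => ?_
  have h : ∀ i : Fin l, f ((Equiv.addRight t) x + (z i - t)) = f (x + z i) := by
    intro i
    congr 1
    rw [Equiv.coe_addRight]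
    ring
  simp only [h]
  rw [Equiv.coe_addRight]

private theorem CrS_pow (u v w : ℝ) (m : ℕ) :
    (u - v) ^ (2 * m) ≤ 2 ^ (2 * m - 1) * ((w - u) ^ (2 * m) + (w - v) ^ (2 * m)) := by
  have he : Even (2 * m) := even_two_mul m
  rw [← he.pow_abs (u - v), ← he.pow_abs (w - u), ← he.pow_abs (w - v)]
  have h1 : |u - v| ≤ |w - u| + |w - v| := by
    have := abs_sub_le u w v
    rwa [abs_sub_comm u w] at this
  exact (pow_le_pow_left₀ (abs_nonneg _) h1 _).trans (add_pow_le (abs_nonneg _) (abs_nonneg _) _)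

theorem rCrS (h1 : S_Mom) : S_CrS := by
  classical
  intro N _ E f m l hE hm hl hf
  have hN : (0 : ℝ) < N := by exact_mod_cast Nat.pos_of_ne_zero (NeZero.ne N)
  have hm0 : (0 : ℝ) < m := by exact_mod_cast hm
  have hl0 : (0 : ℝ) < l := by exact_mod_cast hl
  have hc : (0 : ℝ) < (64 * m / l : ℝ) ^ m := by positivity
  set B : ℝ := 2 * (64 * m / l : ℝ) ^ m * N with hBd
  have hB : 0 < B := by positivity
  have hcard : (Fintype.piFinset (fun _ : Fin l => E)).card = E.card ^ l := by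
    rw [Fintype.card_piFinset, Finset.prod_const, Finset.card_univ, Fintype.card_fin]
  have hhalf := CrS_half (Fintype.piFinset (fun _ : Fin l => E)) (CrS_Q E f m) B hB
    (CrS_Q_nonneg E f m) (by
      have h2 := h1 N E f m l hE hm hl hf
      unfold CrS_Q
      rw [hcard]
      refine h2.trans (le_of_eq ?_)
      rw [hBd]
      push_cast
      ring)
  set L := (Fintype.piFinset (fun _ : Fin l => E)).filter fun a => CrS_Q E f m a ≤ B with hLd
  obtain ⟨z, hz⟩ := CrS_pig L
  refine ⟨(univ : Finset (ZMod N)).filter fun t => (fun i => z i - t) ∈ L, ?_, ?_⟩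
  · rw [hcard] at hhalf
    push_cast at hhalf
    have hz' : (L.card : ℝ) * N ≤
        (((univ : Finset (ZMod N)).filter fun t => (fun i => z i - t) ∈ L).card : ℝ) * (N : ℝ) ^ l := by
      exact_mod_cast hz
    calc (E.card : ℝ) ^ l * N ≤ 2 * L.card * N := mul_le_mul_of_nonneg_right hhalf hN.le
      _ = 2 * (L.card * N) := by ring
      _ ≤ 2 * ((((univ : Finset (ZMod N)).filter fun t => (fun i => z i - t) ∈ L).card : ℝ) * (N : ℝ) ^ l) := by
          linarith
      _ = _ := by ring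
  · intro t ht t' ht'
    have hb : ∀ s ∈ (univ : Finset (ZMod N)).filter (fun t => (fun i => z i - t) ∈ L),
        ∑ x : ZMod N, ((∑ i, f (x + z i)) / l - av E f (x + s)) ^ (2 * m) ≤ B := by
      intro s hs
      rw [← CrS_shift]
      exact (Finset.mem_filter.1 (Finset.mem_filter.1 hs).2).2
    have h3 : ∑ x : ZMod N, (av E f (x + t) - av E f (x + t')) ^ (2 * m) ≤
        2 ^ (2 * m - 1) * (∑ x : ZMod N, ((∑ i, f (x + z i)) / l - av E f (x + t)) ^ (2 * m) +
          ∑ x : ZMod N, ((∑ i, f (x + z i)) / l - av E f (x + t')) ^ (2 * m)) := by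
      rw [← Finset.sum_add_distrib, Finset.mul_sum]
      exact Finset.sum_le_sum fun x _ => CrS_pow _ _ _ m
    refine h3.trans ((mul_le_mul_of_nonneg_left (add_le_add (hb t ht) (hb t' ht'))
      (by positivity)).trans (le_of_eq ?_))
    have h4 : (2 : ℝ) ^ (2 * m - 1) * 2 = 4 ^ m := by
      rw [← pow_succ, Nat.sub_add_cancel (by omega), pow_mul]
      norm_num
    have h5 : (256 * m / l : ℝ) ^ m = 4 ^ m * (64 * m / l : ℝ) ^ m := by
      rw [← mul_pow]
      congr 1
      ring
    rw [h5, hBd, ← h4]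
    ring

end Pool.Agent.SAN
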