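import Pool.Agent.Lib.MP_95b053_co.SAN.Spec

/-!
MP_95b053_co, project SAN: module Cvx (helper95).
-/

set_option autoImplicit false

namespace Pool.Agent.SAN

open Finset

theorem rCvx : S_Cvx := by
  intro s y hy
  have h1 := abs_le.1 hy
  have h0 : (0 : ℝ) ≤ (1 + y) / 2 := by linarith
  have h0' : (0 : ℝ) ≤ (1 - y) / 2 := by linarith
  have h := convexOn_exp.2 (Set.mem_univ s) (Set.mem_univ (-s)) h0 h0' (by ring)
  simp only [smul_eq_mul] at h
  have e1 : (1 + y) / 2 * s + (1 - y) / 2 * -s = s * y := by ring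
  rw [e1] at h
  rw [Real.cosh_eq, Real.sinh_eq]
  linarith

end Pool.Agent.SAN
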