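import Pool.Agent.Lib.MP_95b053_co.SAN.Spec

/-!
# MP_95b053_co, project SAN, module Dsc: the product formula for dissociated sets
-/

set_option autoImplicit false

namespace Pool.Agent.SAN

open Finset

/-- `r` is not a sum of the elements of `L` with coefficients in `{-1, 0, 1}`. -/
private def Dsc_Z {N : ℕ} (L : Finset (ZMod N)) (r : ZMod N) : Prop :=
  ∀ e : ZMod N → ℤ, (∀ x, |e x| ≤ 1) → r + ∑ x ∈ L, e x • x ≠ 0

private theorem Dsc_upd {N : ℕ} (L : Finset (ZMod N)) (y : ZMod N) (hy : y ∉ L)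
    (e : ZMod N → ℤ) (s : ℤ) :
    ∑ x ∈ insert y L, (Function.update e y s) x • x = s • y + ∑ x ∈ L, e x • x := by
  rw [Finset.sum_insert hy, Function.update_self]
  refine congrArg (fun z => s • y + z) (Finset.sum_congr rfl fun x hx => ?_)
  rw [Function.update_of_ne]
  rintro rfl
  exact hy hx

private theorem Dsc_abs {N : ℕ} (y : ZMod N) (e : ZMod N → ℤ) (s : ℤ) (he : ∀ x, |e x| ≤ 1)
    (hs : |s| ≤ 1) (x : ZMod N) : |(Function.update e y s) x| ≤ 1 := by
  by_cases h : x = y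
  · rw [h, Function.update_self]
    exact hs
  · rw [Function.update_of_ne h]
    exact he x

private theorem Dsc_ins {N : ℕ} (L : Finset (ZMod N)) (y r : ZMod N) (hy : y ∉ L) (s : ℤ)
    (hs : |s| ≤ 1) (h : Dsc_Z (insert y L) r) : Dsc_Z L (r + s • y) := by
  intro e he h0
  refine h (Function.update e y s) (Dsc_abs y e s he hs) ?_
  rw [Dsc_upd L y hy e s, ← add_assoc]
  exact h0

private theorem Dsc_dis {N : ℕ} (L : Finset (ZMod N)) (y : ZMod N) (hy : y ∉ L)
    (h : Dis (insert y L)) : Dis L := by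
  intro e he h0 x hx
  have h1 := h (Function.update e y 0) (Dsc_abs y e 0 he (by norm_num)) (by
    rw [Dsc_upd L y hy e 0, zero_smul, zero_add]
    exact h0) x (Finset.mem_insert_of_mem hx)
  rw [Function.update_of_ne] at h1
  · exact h1
  · rintro rfl
    exact hy hx

private theorem Dsc_dis' {N : ℕ} (L : Finset (ZMod N)) (y : ZMod N) (hy : y ∉ L) (s : ℤ)
    (hs : |s| ≤ 1) (hs0 : s ≠ 0) (h : Dis (insert y L)) : Dsc_Z L (s • y) := by
  intro e he h0
  have h1 := h (Function.update e y s) (Dsc_abs y e s he hs) (by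
    rw [Dsc_upd L y hy e s]
    exact h0) y (Finset.mem_insert_self y L)
  rw [Function.update_self] at h1
  exact hs0 h1

/-- The factor for `y`. -/
private noncomputable def Dsc_w {N : ℕ} [NeZero N] (c : ZMod N → ℂ) (A B : ℝ) (y x : ZMod N) :
    ℂ := ((A + B * (c y * (ZMod.stdAddChar (y * x) : ℂ)).re : ℝ) : ℂ)

private theorem Dsc_w_eq {N : ℕ} [NeZero N] (c : ZMod N → ℂ) (A B : ℝ) (y x : ZMod N) :
    Dsc_w c A B y x = A + (B / 2 * c y) * ZMod.stdAddChar ((1 : ℤ) • y * x) +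
      (B / 2 * (starRingEnd ℂ) (c y)) * ZMod.stdAddChar ((-1 : ℤ) • y * x) := by
  have h1 : (ZMod.stdAddChar ((-1 : ℤ) • y * x) : ℂ) =
      (starRingEnd ℂ) (ZMod.stdAddChar (y * x) : ℂ) := by
    rw [← AddChar.map_neg_eq_conj]
    refine congrArg (fun z => (ZMod.stdAddChar z : ℂ)) ?_
    rw [neg_smul, one_smul, neg_mul]
  rw [h1, one_smul]
  unfold Dsc_w
  rw [Complex.ofReal_add, Complex.ofReal_mul, Complex.re_eq_add_conj,
    map_mul (starRingEnd ℂ) (c y) (ZMod.stdAddChar (y * x) : ℂ)]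
  ring

private theorem Dsc_char {N : ℕ} [NeZero N] (r y x : ZMod N) :
    (ZMod.stdAddChar (r * x) : ℂ) * ZMod.stdAddChar (y * x) = ZMod.stdAddChar ((r + y) * x) := by
  rw [add_mul, AddChar.map_add_eq_mul]

private theorem Dsc_step {N : ℕ} [NeZero N] (L : Finset (ZMod N)) (c : ZMod N → ℂ) (A B : ℝ)
    (y r : ZMod N) (hy : y ∉ L) :
    ∑ x : ZMod N, (ZMod.stdAddChar (r * x) : ℂ) * ∏ z ∈ insert y L, Dsc_w c A B z x =
      A * (∑ x : ZMod N, (ZMod.stdAddChar (r * x) : ℂ) * ∏ z ∈ L, Dsc_w c A B z x) +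
      (B / 2 * c y) *
        (∑ x : ZMod N, (ZMod.stdAddChar ((r + (1 : ℤ) • y) * x) : ℂ) * ∏ z ∈ L, Dsc_w c A B z x) +
      (B / 2 * (starRingEnd ℂ) (c y)) *
        (∑ x : ZMod N, (ZMod.stdAddChar ((r + (-1 : ℤ) • y) * x) : ℂ) *
          ∏ z ∈ L, Dsc_w c A B z x) := by
  rw [Finset.mul_sum, Finset.mul_sum, Finset.mul_sum, ← Finset.sum_add_distrib,
    ← Finset.sum_add_distrib]
  refine Finset.sum_congr rfl fun x _ => ?_
  rw [Finset.prod_insert hy, Dsc_w_eq c A B y x, ← Dsc_char r ((1 : ℤ) • y) x,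
    ← Dsc_char r ((-1 : ℤ) • y) x]
  ring

private theorem Dsc_zero {N : ℕ} [NeZero N] (c : ZMod N → ℂ) (A B : ℝ) (L : Finset (ZMod N)) :
    ∀ r : ZMod N, Dsc_Z L r →
      ∑ x : ZMod N, (ZMod.stdAddChar (r * x) : ℂ) * ∏ z ∈ L, Dsc_w c A B z x = 0 := by
  induction L using Finset.induction_on with
  | empty =>
    intro r hr
    have hr0 : r ≠ 0 := by
      intro h
      refine hr (fun _ => 0) (fun _ => by norm_num) ?_
      rw [h, Finset.sum_empty, add_zero]
    have h1 : ∑ x : ZMod N, (ZMod.stdAddChar (x * r) : ℂ) = 0 := by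
      rw [AddChar.sum_mulShift _ (ZMod.isPrimitive_stdAddChar N), if_neg hr0, Nat.cast_zero]
    rw [← h1]
    refine Finset.sum_congr rfl fun x _ => ?_
    rw [Finset.prod_empty, mul_one, mul_comm]
  | insert y L hy ih =>
    intro r hr
    have h0 := Dsc_ins L y r hy 0 (by norm_num) hr
    rw [zero_smul, add_zero] at h0
    rw [Dsc_step L c A B y r hy, ih r h0, ih _ (Dsc_ins L y r hy 1 (by norm_num) hr),
      ih _ (Dsc_ins L y r hy (-1) (by norm_num) hr)]
    ring

private theorem Dsc_main {N : ℕ} [NeZero N] (c : ZMod N → ℂ) (A B : ℝ) (L : Finset (ZMod N)) :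
    Dis L → ∑ x : ZMod N, (ZMod.stdAddChar (0 * x) : ℂ) * ∏ z ∈ L, Dsc_w c A B z x =
      N * (A : ℂ) ^ L.card := by
  induction L using Finset.induction_on with
  | empty =>
    intro _
    rw [Finset.card_empty, pow_zero, mul_one]
    have h1 : ∀ x : ZMod N, (ZMod.stdAddChar (0 * x) : ℂ) * ∏ z ∈ (∅ : Finset (ZMod N)),
        Dsc_w c A B z x = 1 := by
      intro x
      rw [zero_mul, AddChar.map_zero_eq_one, Finset.prod_empty, mul_one]
    rw [Finset.sum_congr rfl fun x _ => h1 x, Finset.sum_const, Finset.card_univ, ZMod.card,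
      nsmul_eq_mul, mul_one]
  | insert y L hy ih =>
    intro hd
    have h1 := Dsc_zero c A B L (0 + (1 : ℤ) • y) (by
      rw [zero_add]
      exact Dsc_dis' L y hy 1 (by norm_num) (by norm_num) hd)
    have h2 := Dsc_zero c A B L (0 + (-1 : ℤ) • y) (by
      rw [zero_add]
      exact Dsc_dis' L y hy (-1) (by norm_num) (by norm_num) hd)
    rw [Dsc_step L c A B y 0 hy, ih (Dsc_dis L y hy hd), h1, h2, Finset.card_insert_of_notMem hy,
      pow_succ]
    ring

theorem rDsc : S_Dsc := by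
  intro N _ L c A B hd
  have h := Dsc_main c A B L hd
  have h1 : (((∑ x : ZMod N, ∏ y ∈ L, (A + B * (c y * (ZMod.stdAddChar (y * x) : ℂ)).re) : ℝ)) :
      ℂ) = ((N * A ^ L.card : ℝ) : ℂ) := by
    rw [Complex.ofReal_sum, Complex.ofReal_mul, Complex.ofReal_pow, Complex.ofReal_natCast, ← h]
    refine Finset.sum_congr rfl fun x _ => ?_
    rw [zero_mul, AddChar.map_zero_eq_one, one_mul, Complex.ofReal_prod]
    rfl
  exact Complex.ofReal_injective h1

end Pool.Agent.SAN
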