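import Pool.Agent.Lib.MP_95b053_co.SAN.Spec
import Pool.Agent.Lib.MP_95b053_co.Line

set_option autoImplicit false

namespace Pool.Agent.SAN

open Finset
open scoped Pointwise

private theorem Fin2_main (V : Finset (ℝ × ℝ × ℝ)) (K : ℝ) (h D : ℕ) (hD : 1 ≤ D) (hV : V.Nonempty)
    (hK : ((V - V).card : ℝ) ≤ K * V.card) (hK2 : K ≤ 2 ^ h)
    (hAP : ∀ L : ℕ, 1 ≤ L → ((L * 2 ^ (119 * h) : ℕ) : ℝ) ^ D ≤ V.card →
      ∃ v : ℝ × ℝ × ℝ, v ≠ 0 ∧ ∀ n : ℤ, |n| ≤ L →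
        ∃ a ∈ V, ∃ b ∈ V, ∃ c ∈ V, ∃ d ∈ V, (n : ℝ) • v = a + b - c - d) :
    ∃ (a0 v : ℝ × ℝ × ℝ) (T : Finset (ℝ × ℝ × ℝ)), T ⊆ V ∧ T.Nonempty ∧ (∀ q ∈ T, ∃ s : ℝ, q = a0 + s • v) ∧
      (V.card : ℝ) ≤ (2 ^ (124 * h) * T.card : ℝ) ^ D := by
  classical
  have hVpos : (0 : ℝ) < (V.card : ℝ) := by exact_mod_cast hV.card_pos
  have hK0 : 0 ≤ K := by
    by_contra hneg
    push Not at hneg
    have h1 : K * V.card < 0 := mul_neg_of_neg_of_pos hneg hVpos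
    have h2 : (0 : ℝ) ≤ ((V - V).card : ℝ) := Nat.cast_nonneg _
    linarith
  have hq : (1 : ℝ) ≤ 2 ^ (119 * h) := one_le_pow₀ (by norm_num)
  by_cases hsmall : (V.card : ℝ) < (((1 : ℕ) * 2 ^ (119 * h) : ℕ) : ℝ) ^ D
  · obtain ⟨a, ha⟩ := hV
    refine ⟨a, 0, {a}, Finset.singleton_subset_iff.2 ha, Finset.singleton_nonempty a, ?_, ?_⟩
    · intro q hq
      exact ⟨0, by rw [Finset.mem_singleton.1 hq]; simp⟩
    · refine hsmall.le.trans ?_
      rw [Finset.card_singleton]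
      push_cast
      rw [one_mul, mul_one]
      exact pow_le_pow_left₀ (by positivity) (pow_le_pow_right₀ (by norm_num) (by omega)) D
  · have hex : ∃ L : ℕ, (V.card : ℝ) < ((L * 2 ^ (119 * h) : ℕ) : ℝ) ^ D := by
      refine ⟨V.card + 1, ?_⟩
      push_cast
      have h1 : (V.card : ℝ) + 1 ≤ ((V.card : ℝ) + 1) * 2 ^ (119 * h) :=
        le_mul_of_one_le_right (by positivity) hq
      have h2 : ((V.card : ℝ) + 1) * 2 ^ (119 * h) ≤ (((V.card : ℝ) + 1) * 2 ^ (119 * h)) ^ D :=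
        le_self_pow₀ (by linarith) (by omega)
      linarith
    set m := Nat.find hex with hm
    have hm1 : (V.card : ℝ) < ((m * 2 ^ (119 * h) : ℕ) : ℝ) ^ D := Nat.find_spec hex
    have hm2 : 2 ≤ m := by
      by_contra hlt
      have h3 : m = 0 ∨ m = 1 := by omega
      rcases h3 with h3 | h3
      · rw [h3, zero_mul, Nat.cast_zero, zero_pow (by omega)] at hm1
        exact lt_irrefl _ (hm1.trans hVpos)
      · rw [h3] at hm1
        exact hsmall hm1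
    have hL : ((((m - 1 : ℕ)) * 2 ^ (119 * h) : ℕ) : ℝ) ^ D ≤ V.card := by
      have h4 := Nat.find_min hex (m := m - 1) (by omega)
      exact not_lt.1 h4
    obtain ⟨v, hv, hvn⟩ := hAP (m - 1) (by omega) hL
    obtain ⟨p, _, T, hTV, hTl, hTc⟩ := Pool.Agent.RR95.rLine V K (m - 1) v hV hK hv hvn
    have hm1r : ((m - 1 : ℕ) : ℝ) = (m : ℝ) - 1 := by
      rw [Nat.cast_sub (by omega), Nat.cast_one]
    rw [hm1r] at hTc
    have hm2r : (2 : ℝ) ≤ (m : ℝ) := by exact_mod_cast hm2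
    have hTne : T.Nonempty := by
      rw [Finset.nonempty_iff_ne_empty]
      intro he
      rw [he, Finset.card_empty, Nat.cast_zero, mul_zero] at hTc
      linarith
    refine ⟨p, v, T, hTV, hTne, hTl, ?_⟩
    refine hm1.le.trans ?_
    refine pow_le_pow_left₀ (Nat.cast_nonneg _) ?_ D
    push_cast
    have h5 : K ^ 5 ≤ (2 ^ h) ^ 5 := pow_le_pow_left₀ hK0 hK2 5
    have h6 : (m : ℝ) ≤ (2 ^ h) ^ 5 * T.card := by
      have h7 : K ^ 5 * (T.card : ℝ) ≤ (2 ^ h) ^ 5 * T.card :=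
        mul_le_mul_of_nonneg_right h5 (Nat.cast_nonneg _)
      linarith
    calc (m : ℝ) * 2 ^ (119 * h) ≤ (2 ^ h) ^ 5 * T.card * 2 ^ (119 * h) :=
          mul_le_mul_of_nonneg_right h6 (by positivity)
      _ = 2 ^ (124 * h) * T.card := by
          rw [← pow_mul, show (124 : ℕ) * h = h * 5 + 119 * h by ring, pow_add]; ring

theorem rFin2 (h1 : S_AP2) : S_Fin2 := by
  intro V K h hV hK hK2 hh
  have hAP := fun L : ℕ => h1 V K h L hV hK hK2 hh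
  have hD : 1 ≤ 2 ^ 41 * h ^ 4 := Nat.one_le_iff_ne_zero.2 (by positivity)
  exact Fin2_main V K h (2 ^ 41 * h ^ 4) hD hV hK hK2 (fun L hL hc => hAP L hL hc)

end Pool.Agent.SAN
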