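import Pool.Agent.Lib.MP_95b053_co.SAN.Spec

set_option autoImplicit false

namespace Pool.Agent.SAN

open Finset
open scoped Pointwise

private theorem Four_conj {N : ℕ} [NeZero N] (x : ZMod N) :
    (ZMod.stdAddChar (-x) : ℂ) = (starRingEnd ℂ) (ZMod.stdAddChar x) :=
  AddChar.map_neg_eq_conj _ _

private theorem Four_norm {N : ℕ} [NeZero N] (x : ZMod N) : ‖(ZMod.stdAddChar x : ℂ)‖ = 1 :=
  AddChar.norm_apply _ _

private theorem Four_sq {N : ℕ} [NeZero N] (S : Finset (ZMod N)) (r : ZMod N) :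
    ((‖es S r‖ ^ 2 : ℝ) : ℂ) = ∑ i ∈ S, ∑ j ∈ S, (ZMod.stdAddChar (r * (i - j)) : ℂ) := by
  have h : ((‖es S r‖ ^ 2 : ℝ) : ℂ) = es S r * (starRingEnd ℂ) (es S r) := by
    rw [Complex.mul_conj, Complex.normSq_eq_norm_sq]
  rw [h]
  unfold es
  rw [map_sum, Finset.sum_mul_sum]
  refine Finset.sum_congr rfl fun i _ => Finset.sum_congr rfl fun j _ => ?_
  rw [← Four_conj, ← AddChar.map_add_eq_mul]
  congr 1
  ring

private theorem Four_pars {N : ℕ} [NeZero N] (E : Finset (ZMod N)) :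
    ∑ r : ZMod N, ‖es E r‖ ^ 2 = N * E.card := by
  have h : ∑ r : ZMod N, ((‖es E r‖ ^ 2 : ℝ) : ℂ) =
      ∑ i ∈ E, ∑ j ∈ E, if i - j = 0 then (N : ℂ) else 0 := by
    rw [Finset.sum_congr rfl fun r _ => Four_sq E r, Finset.sum_comm]
    refine Finset.sum_congr rfl fun i _ => ?_
    rw [Finset.sum_comm]
    refine Finset.sum_congr rfl fun j _ => ?_
    rw [AddChar.sum_mulShift _ (ZMod.isPrimitive_stdAddChar N), ZMod.card]
    split_ifs <;> simp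
  have h2 : ∑ i ∈ E, ∑ j ∈ E, (if (i : ZMod N) - j = 0 then (N : ℂ) else 0) = N * E.card := by
    have h3 : ∀ i ∈ E, ∑ j ∈ E, (if (i : ZMod N) - j = 0 then (N : ℂ) else 0) = N := by
      intro i hi
      rw [Finset.sum_eq_single i]
      · rw [if_pos (by simp)]
      · intro j _ hj
        rw [if_neg]
        intro h
        apply hj
        rw [sub_eq_zero] at h
        exact h.symm
      · intro h
        exact absurd hi h
    rw [Finset.sum_congr rfl h3, Finset.sum_const, nsmul_eq_mul, mul_comm]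
  rw [h2] at h
  exact_mod_cast h

private theorem Four_le {N : ℕ} [NeZero N] (S : Finset (ZMod N)) (r : ZMod N) :
    ‖es S r‖ ≤ S.card := by
  unfold es
  refine (norm_sum_le _ _).trans ?_
  rw [Finset.sum_congr rfl fun t _ => Four_norm (r * t)]
  simp

private theorem Four_w {N : ℕ} [NeZero N] (S : Finset (ZMod N)) (r : ZMod N) :
    ‖∑ y ∈ S, (ZMod.stdAddChar (-(r * y)) : ℂ)‖ ≤ N := by
  refine (norm_sum_le _ _).trans ?_
  rw [Finset.sum_congr rfl fun t _ => Four_norm (-(r * t))]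
  rw [Finset.sum_const, nsmul_eq_mul, mul_one]
  have h := Finset.card_le_univ S
  rw [ZMod.card] at h
  exact_mod_cast h

private theorem Four_fac {N : ℕ} [NeZero N] (T : Finset (ZMod N)) (k : ℕ) (ε : ℝ) (x : ZMod N)
    (hT : T.Nonempty) (hε : 0 ≤ ε)
    (hsp : ∀ r : ZMod N, (T.card : ℝ) / 2 ≤ ‖es T r‖ → ‖(ZMod.stdAddChar (r * x) : ℂ) - 1‖ ≤ ε)
    (r : ZMod N) :
    (‖es T r‖ / T.card) ^ (2 * k) * ‖(ZMod.stdAddChar (r * x) : ℂ) - 1‖ ≤ ε + 2 / 4 ^ k := by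
  have hc : (0 : ℝ) < T.card := by exact_mod_cast hT.card_pos
  have h0 : 0 ≤ ‖es T r‖ / T.card := by positivity
  have h4 : (0 : ℝ) ≤ 2 / 4 ^ k := by positivity
  by_cases h : (T.card : ℝ) / 2 ≤ ‖es T r‖
  · have h1 : ‖es T r‖ / T.card ≤ 1 := by
      rw [div_le_one hc]
      exact Four_le T r
    have h2 : (‖es T r‖ / T.card) ^ (2 * k) ≤ 1 := pow_le_one₀ h0 h1
    have h3 := hsp r h
    calc (‖es T r‖ / T.card) ^ (2 * k) * ‖(ZMod.stdAddChar (r * x) : ℂ) - 1‖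
        ≤ 1 * ε := mul_le_mul h2 h3 (norm_nonneg _) zero_le_one
      _ ≤ ε + 2 / 4 ^ k := by linarith
  · have h1 : ‖es T r‖ / T.card ≤ 1 / 2 := by
      rw [div_le_iff₀ hc]
      push Not at h
      linarith
    have h2 : (‖es T r‖ / T.card) ^ (2 * k) ≤ 1 / 4 ^ k := by
      calc (‖es T r‖ / T.card) ^ (2 * k) ≤ (1 / 2) ^ (2 * k) := pow_le_pow_left₀ h0 h1 _
        _ = 1 / 4 ^ k := by
          rw [pow_mul, show ((1 : ℝ) / 2) ^ 2 = 1 / 4 by norm_num, one_div_pow]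
    have h3 : ‖(ZMod.stdAddChar (r * x) : ℂ) - 1‖ ≤ 2 := by
      refine (norm_sub_le _ _).trans ?_
      rw [Four_norm, norm_one]
      norm_num
    calc (‖es T r‖ / T.card) ^ (2 * k) * ‖(ZMod.stdAddChar (r * x) : ℂ) - 1‖
        ≤ 1 / 4 ^ k * 2 := mul_le_mul h2 h3 (norm_nonneg _) (by positivity)
      _ = 2 / 4 ^ k := by ring
      _ ≤ ε + 2 / 4 ^ k := by linarith

theorem rFour (h1 : S_Inv) : S_Four := by
  intro N _ E T k ε x hE hT hε hsp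
  have hN : (0 : ℝ) < N := by exact_mod_cast Nat.pos_of_ne_zero (NeZero.ne N)
  have hc : (0 : ℝ) < E.card := by exact_mod_cast hE.card_pos
  have hx := h1 N E T k x hE hT
  have h0 := h1 N E T k 0 hE hT
  have hd : ((PP E T k x - PP E T k 0 : ℝ) : ℂ) = (1 / N) * ∑ r : ZMod N,
      (∑ y ∈ E - E, (ZMod.stdAddChar (-(r * y)) : ℂ)) *
        ((‖es E r‖ ^ 2 / (E.card : ℝ) ^ 2 * (‖es T r‖ / T.card) ^ (2 * k) : ℝ) : ℂ) *
          ((ZMod.stdAddChar (r * x) : ℂ) - 1) := by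
    rw [Complex.ofReal_sub, hx, h0, ← mul_sub, ← Finset.sum_sub_distrib]
    congr 1
    refine Finset.sum_congr rfl fun r _ => ?_
    rw [mul_zero, AddChar.map_zero_eq_one]
    ring
  have hnorm : |PP E T k x - PP E T k 0| = ‖((PP E T k x - PP E T k 0 : ℝ) : ℂ)‖ := by
    rw [Complex.norm_real, Real.norm_eq_abs]
  rw [hnorm, hd, norm_mul]
  have hterm : ∀ r : ZMod N, ‖(∑ y ∈ E - E, (ZMod.stdAddChar (-(r * y)) : ℂ)) *
        ((‖es E r‖ ^ 2 / (E.card : ℝ) ^ 2 * (‖es T r‖ / T.card) ^ (2 * k) : ℝ) : ℂ) *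
          ((ZMod.stdAddChar (r * x) : ℂ) - 1)‖ ≤
      ‖es E r‖ ^ 2 * (N / (E.card : ℝ) ^ 2 * (ε + 2 / 4 ^ k)) := by
    intro r
    rw [norm_mul, norm_mul, Complex.norm_real, Real.norm_eq_abs,
      abs_of_nonneg (by positivity : (0 : ℝ) ≤ ‖es E r‖ ^ 2 / (E.card : ℝ) ^ 2 *
        (‖es T r‖ / T.card) ^ (2 * k))]
    have hw := Four_w (E - E) r
    have hf := Four_fac T k ε x hT hε hsp r
    have hf0 : 0 ≤ (‖es T r‖ / T.card) ^ (2 * k) * ‖(ZMod.stdAddChar (r * x) : ℂ) - 1‖ := by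
      positivity
    have hq : 0 ≤ ‖es E r‖ ^ 2 / (E.card : ℝ) ^ 2 := by positivity
    calc ‖∑ y ∈ E - E, (ZMod.stdAddChar (-(r * y)) : ℂ)‖ *
          (‖es E r‖ ^ 2 / (E.card : ℝ) ^ 2 * (‖es T r‖ / T.card) ^ (2 * k)) *
            ‖(ZMod.stdAddChar (r * x) : ℂ) - 1‖
        = ‖∑ y ∈ E - E, (ZMod.stdAddChar (-(r * y)) : ℂ)‖ * ((‖es E r‖ ^ 2 / (E.card : ℝ) ^ 2) *
            ((‖es T r‖ / T.card) ^ (2 * k) * ‖(ZMod.stdAddChar (r * x) : ℂ) - 1‖)) := by ring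
      _ ≤ N * ((‖es E r‖ ^ 2 / (E.card : ℝ) ^ 2) * (ε + 2 / 4 ^ k)) :=
          mul_le_mul hw (mul_le_mul_of_nonneg_left hf hq) (mul_nonneg hq hf0) hN.le
      _ = ‖es E r‖ ^ 2 * (N / (E.card : ℝ) ^ 2 * (ε + 2 / 4 ^ k)) := by ring
  have hsum := (norm_sum_le (Finset.univ : Finset (ZMod N)) fun r =>
      (∑ y ∈ E - E, (ZMod.stdAddChar (-(r * y)) : ℂ)) *
        ((‖es E r‖ ^ 2 / (E.card : ℝ) ^ 2 * (‖es T r‖ / T.card) ^ (2 * k) : ℝ) : ℂ) *
          ((ZMod.stdAddChar (r * x) : ℂ) - 1)).trans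
    (Finset.sum_le_sum fun r _ => hterm r)
  rw [← Finset.sum_mul, Four_pars] at hsum
  have hn : ‖(1 / N : ℂ)‖ = 1 / N := by
    rw [norm_div, norm_one, Complex.norm_natCast]
  rw [hn]
  refine (mul_le_mul_of_nonneg_left hsum (by positivity)).trans (le_of_eq ?_)
  field_simp

end Pool.Agent.SAN
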