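import Pool.Agent.Lib.MP_95b053_co.SAN.Spec

/-!
# MP_95b053_co, project SAN: Fourier inversion for the smoothed function
-/

set_option autoImplicit false

namespace Pool.Agent.SAN

open Finset
open scoped Pointwise

private theorem Inv_neg {N : ℕ} [NeZero N] (x : ZMod N) :
    (ZMod.stdAddChar (-x) : ℂ) = (starRingEnd ℂ) (ZMod.stdAddChar x) :=
  AddChar.map_neg_eq_conj _ _

/-- the inversion formula for the indicator function of `W` -/
private theorem Inv_ind {N : ℕ} [NeZero N] (W : Finset (ZMod N)) (z : ZMod N) :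
    (((if z ∈ W then (1 : ℝ) else 0 : ℝ)) : ℂ) =
      (1 / N) * ∑ r : ZMod N, (∑ y ∈ W, (ZMod.stdAddChar (-(r * y)) : ℂ)) *
        ZMod.stdAddChar (r * z) := by
  have hN : (N : ℂ) ≠ 0 := by exact_mod_cast NeZero.ne N
  have h1 : ∀ r : ZMod N, (∑ y ∈ W, (ZMod.stdAddChar (-(r * y)) : ℂ)) *
      ZMod.stdAddChar (r * z) = ∑ y ∈ W, (ZMod.stdAddChar (r * (z - y)) : ℂ) := by
    intro r
    rw [Finset.sum_mul]
    refine Finset.sum_congr rfl fun y _ => ?_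
    rw [← AddChar.map_add_eq_mul]
    congr 1
    ring
  have h2 : ∑ r : ZMod N, (∑ y ∈ W, (ZMod.stdAddChar (-(r * y)) : ℂ)) *
      ZMod.stdAddChar (r * z) = if z ∈ W then (N : ℂ) else 0 := by
    rw [Finset.sum_congr rfl fun r _ => h1 r, Finset.sum_comm]
    have h3 : ∀ y ∈ W, ∑ r : ZMod N, (ZMod.stdAddChar (r * (z - y)) : ℂ) =
        if z = y then (N : ℂ) else 0 := by
      intro y _
      rw [AddChar.sum_mulShift _ (ZMod.isPrimitive_stdAddChar N), ZMod.card]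
      by_cases h : z = y
      · rw [if_pos h, if_pos (sub_eq_zero.2 h)]
      · rw [if_neg h, if_neg (fun h' => h (sub_eq_zero.1 h'))]
        simp
    rw [Finset.sum_congr rfl h3, Finset.sum_ite_eq]
  rw [h2]
  by_cases h : z ∈ W
  · rw [if_pos h, if_pos h]
    field_simp
    simp
  · rw [if_neg h, if_neg h]
    simp

private theorem Inv_sq {N : ℕ} [NeZero N] (E : Finset (ZMod N)) (r : ZMod N) :
    ((‖es E r‖ ^ 2 : ℝ) : ℂ) =
      ∑ b ∈ E, ∑ c ∈ E, (ZMod.stdAddChar (r * (b - c)) : ℂ) := by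
  have h : ((‖es E r‖ ^ 2 : ℝ) : ℂ) = es E r * (starRingEnd ℂ) (es E r) := by
    rw [Complex.mul_conj, Complex.normSq_eq_norm_sq]
  rw [h]
  unfold es
  rw [map_sum, Finset.sum_mul_sum]
  refine Finset.sum_congr rfl fun i _ => Finset.sum_congr rfl fun j _ => ?_
  rw [← Inv_neg, ← AddChar.map_add_eq_mul]
  congr 1
  ring

private theorem Inv_HH {N : ℕ} [NeZero N] (E : Finset (ZMod N)) (y : ZMod N) :
    ((HH E y : ℝ) : ℂ) = (1 / N) * ∑ r : ZMod N,
      (∑ u ∈ E - E, (ZMod.stdAddChar (-(r * u)) : ℂ)) *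
        ((‖es E r‖ ^ 2 / (E.card : ℝ) ^ 2 : ℝ) : ℂ) * ZMod.stdAddChar (r * y) := by
  unfold HH
  rw [Complex.ofReal_div, Complex.ofReal_sum]
  have h1 : ∀ b ∈ E, (((∑ c ∈ E, if y + b - c ∈ E - E then (1 : ℝ) else 0 : ℝ)) : ℂ) =
      ∑ c ∈ E, (1 / N) * ∑ r : ZMod N, (∑ u ∈ E - E, (ZMod.stdAddChar (-(r * u)) : ℂ)) *
        ZMod.stdAddChar (r * y) * ZMod.stdAddChar (r * (b - c)) := by
    intro b _
    rw [Complex.ofReal_sum]
    refine Finset.sum_congr rfl fun c _ => ?_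
    rw [Inv_ind]
    congr 1
    refine Finset.sum_congr rfl fun r _ => ?_
    rw [mul_assoc]
    congr 1
    rw [← AddChar.map_add_eq_mul]
    congr 1
    ring
  rw [Finset.sum_congr rfl h1]
  have h2 : ∑ b ∈ E, ∑ c ∈ E, (1 / (N : ℂ)) * ∑ r : ZMod N,
      (∑ u ∈ E - E, (ZMod.stdAddChar (-(r * u)) : ℂ)) *
        ZMod.stdAddChar (r * y) * ZMod.stdAddChar (r * (b - c)) =
      (1 / (N : ℂ)) * ∑ r : ZMod N, (∑ u ∈ E - E, (ZMod.stdAddChar (-(r * u)) : ℂ)) *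
        ZMod.stdAddChar (r * y) * ((‖es E r‖ ^ 2 : ℝ) : ℂ) := by
    have h3 : ∀ b ∈ E, ∑ c ∈ E, (1 / (N : ℂ)) * ∑ r : ZMod N,
        (∑ u ∈ E - E, (ZMod.stdAddChar (-(r * u)) : ℂ)) *
          ZMod.stdAddChar (r * y) * ZMod.stdAddChar (r * (b - c)) =
        (1 / (N : ℂ)) * ∑ r : ZMod N, ∑ c ∈ E,
        (∑ u ∈ E - E, (ZMod.stdAddChar (-(r * u)) : ℂ)) *
          ZMod.stdAddChar (r * y) * ZMod.stdAddChar (r * (b - c)) := by
      intro b _
      rw [← Finset.mul_sum, Finset.sum_comm]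
    rw [Finset.sum_congr rfl h3, ← Finset.mul_sum, Finset.sum_comm]
    congr 1
    refine Finset.sum_congr rfl fun r _ => ?_
    rw [Inv_sq, Finset.mul_sum]
    refine Finset.sum_congr rfl fun b _ => ?_
    rw [Finset.mul_sum]
  rw [h2, mul_div_assoc, Finset.sum_div]
  congr 1
  refine Finset.sum_congr rfl fun r _ => ?_
  rw [Complex.ofReal_div]
  ring

private theorem Inv_ms {N : ℕ} [NeZero N] {ι : Type*} (s : Finset ι) (f : ι → ZMod N) :
    (ZMod.stdAddChar (∑ i ∈ s, f i) : ℂ) = ∏ i ∈ s, (ZMod.stdAddChar (f i) : ℂ) := by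
  classical
  induction s using Finset.induction_on with
  | empty => simp
  | insert a s ha ih =>
    rw [Finset.sum_insert ha, Finset.prod_insert ha, AddChar.map_add_eq_mul, ih]

private theorem Inv_pow {N : ℕ} [NeZero N] (T : Finset (ZMod N)) (k : ℕ) (r : ZMod N) :
    ∑ a ∈ Fintype.piFinset (fun _ : Fin k => T), (ZMod.stdAddChar (r * ∑ i, a i) : ℂ) =
      es T r ^ k := by
  have h := Finset.prod_univ_sum (fun _ : Fin k => T)
    (fun (_ : Fin k) (t : ZMod N) => (ZMod.stdAddChar (r * t) : ℂ))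
  rw [Finset.prod_const, Finset.card_univ, Fintype.card_fin] at h
  unfold es
  rw [h]
  refine Finset.sum_congr rfl fun a _ => ?_
  rw [Finset.mul_sum, Inv_ms]

private theorem Inv_pair {N : ℕ} [NeZero N] (T : Finset (ZMod N)) (k : ℕ) (r : ZMod N) :
    ∑ a ∈ Fintype.piFinset (fun _ : Fin k => T), ∑ b ∈ Fintype.piFinset (fun _ : Fin k => T),
      (ZMod.stdAddChar (r * (∑ i, a i - ∑ i, b i)) : ℂ) = ((‖es T r‖ ^ (2 * k) : ℝ) : ℂ) := by
  have h0 : ((‖es T r‖ ^ (2 * k) : ℝ) : ℂ) = es T r ^ k * (starRingEnd ℂ) (es T r ^ k) := by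
    rw [Complex.mul_conj, Complex.normSq_eq_norm_sq, norm_pow, pow_mul]
    congr 1
    ring
  rw [h0, ← Inv_pow, map_sum, Finset.sum_mul_sum]
  refine Finset.sum_congr rfl fun a _ => Finset.sum_congr rfl fun b _ => ?_
  rw [← Inv_neg, ← AddChar.map_add_eq_mul]
  congr 1
  ring

theorem rInv : S_Inv := by
  intro N _ E T k x _ _
  unfold PP
  rw [Complex.ofReal_div, Complex.ofReal_sum]
  set A : Finset (Fin k → ZMod N) := Fintype.piFinset (fun _ : Fin k => T) with hA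
  set F : ZMod N → ℂ := fun r => (∑ u ∈ E - E, (ZMod.stdAddChar (-(r * u)) : ℂ)) *
        ((‖es E r‖ ^ 2 / (E.card : ℝ) ^ 2 : ℝ) : ℂ) with hF
  have h1 : ∀ a ∈ A, (((∑ b ∈ A, HH E (x + ∑ i, a i - ∑ i, b i) : ℝ)) : ℂ) =
      ∑ b ∈ A, (1 / (N : ℂ)) * ∑ r : ZMod N, F r * ZMod.stdAddChar (r * x) *
        ZMod.stdAddChar (r * (∑ i, a i - ∑ i, b i)) := by
    intro a _
    rw [Complex.ofReal_sum]
    refine Finset.sum_congr rfl fun b _ => ?_
    rw [Inv_HH]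
    congr 1
    refine Finset.sum_congr rfl fun r _ => ?_
    rw [mul_assoc (F r)]
    congr 1
    rw [← AddChar.map_add_eq_mul]
    congr 1
    ring
  rw [Finset.sum_congr rfl h1]
  have h2 : ∑ a ∈ A, ∑ b ∈ A, (1 / (N : ℂ)) * ∑ r : ZMod N, F r * ZMod.stdAddChar (r * x) *
        ZMod.stdAddChar (r * (∑ i, a i - ∑ i, b i)) =
      (1 / (N : ℂ)) * ∑ r : ZMod N, F r * ZMod.stdAddChar (r * x) *
        ((‖es T r‖ ^ (2 * k) : ℝ) : ℂ) := by
    have h3 : ∀ a ∈ A, ∑ b ∈ A, (1 / (N : ℂ)) * ∑ r : ZMod N, F r * ZMod.stdAddChar (r * x) *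
        ZMod.stdAddChar (r * (∑ i, a i - ∑ i, b i)) =
        (1 / (N : ℂ)) * ∑ r : ZMod N, ∑ b ∈ A, F r * ZMod.stdAddChar (r * x) *
        ZMod.stdAddChar (r * (∑ i, a i - ∑ i, b i)) := by
      intro a _
      rw [← Finset.mul_sum, Finset.sum_comm]
    rw [Finset.sum_congr rfl h3, ← Finset.mul_sum, Finset.sum_comm]
    congr 1
    refine Finset.sum_congr rfl fun r _ => ?_
    rw [← Inv_pair T k r, Finset.mul_sum]
    refine Finset.sum_congr rfl fun a _ => ?_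
    rw [Finset.mul_sum]
  rw [h2, mul_div_assoc, Finset.sum_div]
  congr 1
  refine Finset.sum_congr rfl fun r _ => ?_
  have h4 : ((‖es E r‖ ^ 2 / (E.card : ℝ) ^ 2 * (‖es T r‖ / T.card) ^ (2 * k) : ℝ) : ℂ) =
      ((‖es E r‖ ^ 2 / (E.card : ℝ) ^ 2 : ℝ) : ℂ) *
        (((‖es T r‖ ^ (2 * k) : ℝ) : ℂ) / (((T.card : ℝ) ^ (2 * k) : ℝ) : ℂ)) := by
    rw [div_pow, Complex.ofReal_mul, Complex.ofReal_div (‖es T r‖ ^ (2 * k))]
  rw [h4, hF]
  ring

end Pool.Agent.SAN
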