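import Pool.Agent.Lib.MP_95b053_co.SAN.Spec

/-!
# MP_95b053_co, project SAN, module Mom (helper13): moments of random averages
-/

set_option autoImplicit false

namespace Pool.Agent.SAN

open Finset
open scoped Pointwise

private lemma Mom_exp {N : ℕ} (h1 : S_Cvx) (E : Finset (ZMod N)) (g : ZMod N → ℝ)
    (hg : ∀ b, |g b| ≤ 2) (h0 : ∑ b ∈ E, g b = 0) (s : ℝ) :
    ∑ b ∈ E, Real.exp (s * g b) ≤ E.card * Real.exp (2 * s ^ 2) := by
  have h2 : ∀ b ∈ E, Real.exp (s * g b) ≤ Real.cosh (2 * s) + g b / 2 * Real.sinh (2 * s) := by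
    intro b _
    have h3 := h1 (2 * s) (g b / 2) (by
      rw [abs_div, abs_of_pos (by norm_num : (0 : ℝ) < 2), div_le_one (by norm_num)]
      exact hg b)
    have h4 : 2 * s * (g b / 2) = s * g b := by ring
    rwa [h4] at h3
  have h5 : ∑ b ∈ E, (Real.cosh (2 * s) + g b / 2 * Real.sinh (2 * s)) =
      E.card * Real.cosh (2 * s) := by
    rw [Finset.sum_add_distrib, Finset.sum_const, nsmul_eq_mul, ← Finset.sum_mul, ← Finset.sum_div, h0]
    ring
  have h6 : Real.cosh (2 * s) ≤ Real.exp (2 * s ^ 2) := by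
    refine (Real.cosh_le_exp_half_sq (2 * s)).trans (le_of_eq ?_)
    congr 1
    ring
  calc ∑ b ∈ E, Real.exp (s * g b) ≤ ∑ b ∈ E, (Real.cosh (2 * s) + g b / 2 * Real.sinh (2 * s)) :=
        Finset.sum_le_sum h2
    _ = E.card * Real.cosh (2 * s) := h5
    _ ≤ E.card * Real.exp (2 * s ^ 2) := mul_le_mul_of_nonneg_left h6 (Nat.cast_nonneg _)

private lemma Mom_prod {N : ℕ} (E : Finset (ZMod N)) (g : ZMod N → ℝ) (l : ℕ) (s : ℝ) :
    ∑ a ∈ Fintype.piFinset (fun _ : Fin l => E), Real.exp (s * ∑ i, g (a i)) =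
      (∑ b ∈ E, Real.exp (s * g b)) ^ l := by
  have h1 := Finset.prod_univ_sum (fun _ : Fin l => E)
    (fun (_ : Fin l) (b : ZMod N) => Real.exp (s * g b))
  rw [Finset.prod_const, Finset.card_univ, Fintype.card_fin] at h1
  rw [h1]
  apply Finset.sum_congr rfl
  intro a _
  rw [Finset.mul_sum, Real.exp_sum]

private lemma Mom_pow (Y s : ℝ) (m : ℕ) :
    s ^ (2 * m) * Y ^ (2 * m) ≤
      ((2 * m).factorial : ℝ) * (Real.exp (s * Y) + Real.exp (-(s * Y))) := by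
  have h1 := Real.pow_div_factorial_le_exp (|s * Y|) (abs_nonneg _) (2 * m)
  have h2 : |s * Y| ^ (2 * m) = s ^ (2 * m) * Y ^ (2 * m) := by
    rw [← mul_pow, pow_mul, sq_abs, ← pow_mul]
  have hf : (0 : ℝ) < ((2 * m).factorial : ℝ) := by exact_mod_cast Nat.factorial_pos _
  rw [h2, div_le_iff₀ hf] at h1
  have h3 : Real.exp |s * Y| ≤ Real.exp (s * Y) + Real.exp (-(s * Y)) := by
    rcases abs_cases (s * Y) with ⟨h, _⟩ | ⟨h, _⟩
    · rw [h]
      linarith [Real.exp_pos (-(s * Y))]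
    · rw [h]
      linarith [Real.exp_pos (s * Y)]
  calc s ^ (2 * m) * Y ^ (2 * m) ≤ Real.exp |s * Y| * ((2 * m).factorial : ℝ) := h1
    _ ≤ (Real.exp (s * Y) + Real.exp (-(s * Y))) * ((2 * m).factorial : ℝ) :=
        mul_le_mul_of_nonneg_right h3 hf.le
    _ = _ := mul_comm _ _

private lemma Mom_num (m : ℕ) (hm : 1 ≤ m) : 2 * Real.exp (m : ℝ) ≤ 8 ^ m := by
  have h1 : (2 : ℝ) ≤ 2 ^ m := by
    calc (2 : ℝ) = 2 ^ 1 := (pow_one _).symm
      _ ≤ 2 ^ m := pow_le_pow_right₀ (by norm_num) hm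
  have h2 : Real.exp (m : ℝ) ≤ 4 ^ m := by
    have h3 : Real.exp (m : ℝ) = Real.exp 1 ^ m := by
      rw [← Real.exp_nat_mul, mul_one]
    rw [h3]
    have := Real.exp_one_lt_d9
    exact pow_le_pow_left₀ (Real.exp_pos _).le (by linarith) m
  calc 2 * Real.exp (m : ℝ) ≤ 2 ^ m * 4 ^ m :=
        mul_le_mul h1 h2 (Real.exp_pos _).le (by positivity)
    _ = 8 ^ m := by rw [← mul_pow]; norm_num

private lemma Mom_x {N : ℕ} (h1 : S_Cvx) (E : Finset (ZMod N)) (g : ZMod N → ℝ)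
    (hg : ∀ b, |g b| ≤ 2) (h0 : ∑ b ∈ E, g b = 0) (m l : ℕ) (hm : 1 ≤ m) (hl : 1 ≤ l) :
    ∑ a ∈ Fintype.piFinset (fun _ : Fin l => E), (∑ i, g (a i)) ^ (2 * m) ≤
      (64 * m * l : ℝ) ^ m * (E.card : ℝ) ^ l := by
  have hm' : (0 : ℝ) < m := by exact_mod_cast hm
  have hl' : (0 : ℝ) < l := by exact_mod_cast hl
  obtain ⟨s, hs⟩ : ∃ s : ℝ, s = Real.sqrt (m / (2 * l)) := ⟨_, rfl⟩
  have hs2 : s ^ 2 = m / (2 * l) := by
    rw [hs, Real.sq_sqrt (by positivity)]
  have hA : ∀ r : ℝ, r ^ 2 = m / (2 * l) →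
      ∑ a ∈ Fintype.piFinset (fun _ : Fin l => E), Real.exp (r * ∑ i, g (a i)) ≤
        (E.card : ℝ) ^ l * Real.exp m := by
    intro r hr
    rw [Mom_prod]
    have h2 := Mom_exp h1 E g hg h0 r
    have h3 : ((E.card : ℝ) * Real.exp (2 * r ^ 2)) ^ l = (E.card : ℝ) ^ l * Real.exp m := by
      rw [mul_pow, ← Real.exp_nat_mul, hr]
      congr 2
      field_simp
    rw [← h3]
    exact pow_le_pow_left₀ (Finset.sum_nonneg (fun _ _ => (Real.exp_pos _).le)) h2 l
  have hB : s ^ (2 * m) * ∑ a ∈ Fintype.piFinset (fun _ : Fin l => E), (∑ i, g (a i)) ^ (2 * m) ≤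
      ((2 * m).factorial : ℝ) * (2 * ((E.card : ℝ) ^ l * Real.exp m)) := by
    rw [Finset.mul_sum]
    have h4 : ∑ a ∈ Fintype.piFinset (fun _ : Fin l => E), s ^ (2 * m) * (∑ i, g (a i)) ^ (2 * m) ≤
        ∑ a ∈ Fintype.piFinset (fun _ : Fin l => E), ((2 * m).factorial : ℝ) *
          (Real.exp (s * ∑ i, g (a i)) + Real.exp (-s * ∑ i, g (a i))) := by
      apply Finset.sum_le_sum
      intro a _
      have h5 := Mom_pow (∑ i, g (a i)) s m
      rw [neg_mul]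
      exact h5
    refine h4.trans ?_
    rw [← Finset.mul_sum, Finset.sum_add_distrib]
    apply mul_le_mul_of_nonneg_left _ (Nat.cast_nonneg _)
    have h6 := hA s hs2
    have h7 := hA (-s) (by rw [neg_sq]; exact hs2)
    linarith
  have hC : s ^ (2 * m) = ((m : ℝ) / (2 * l)) ^ m := by rw [pow_mul, hs2]
  have hD : ((2 * m).factorial : ℝ) ≤ (4 * (m : ℝ) ^ 2) ^ m := by
    have h8 : (2 * m).factorial ≤ (2 * m) ^ (2 * m) := Nat.factorial_le_pow _
    have h9 : (((2 * m).factorial : ℕ) : ℝ) ≤ (((2 * m) ^ (2 * m) : ℕ) : ℝ) := Nat.cast_le.2 h8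
    refine h9.trans (le_of_eq ?_)
    push_cast
    rw [pow_mul]
    congr 1
    ring
  have hpos : 0 < ((m : ℝ) / (2 * l)) ^ m := by positivity
  rw [hC] at hB
  have hfin : ((2 * m).factorial : ℝ) * (2 * ((E.card : ℝ) ^ l * Real.exp m)) ≤
      ((m : ℝ) / (2 * l)) ^ m * ((64 * m * l : ℝ) ^ m * (E.card : ℝ) ^ l) := by
    have hE : (0 : ℝ) ≤ (E.card : ℝ) ^ l := by positivity
    calc ((2 * m).factorial : ℝ) * (2 * ((E.card : ℝ) ^ l * Real.exp m))
        ≤ (4 * (m : ℝ) ^ 2) ^ m * (2 * ((E.card : ℝ) ^ l * Real.exp m)) :=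
          mul_le_mul_of_nonneg_right hD (by positivity)
      _ = (4 * (m : ℝ) ^ 2) ^ m * (E.card : ℝ) ^ l * (2 * Real.exp m) := by ring
      _ ≤ (4 * (m : ℝ) ^ 2) ^ m * (E.card : ℝ) ^ l * 8 ^ m :=
          mul_le_mul_of_nonneg_left (Mom_num m hm) (by positivity)
      _ = (4 * (m : ℝ) ^ 2 * 8) ^ m * (E.card : ℝ) ^ l := by rw [mul_pow (4 * (m : ℝ) ^ 2)]; ring
      _ = ((m : ℝ) / (2 * l) * (64 * m * l)) ^ m * (E.card : ℝ) ^ l := by
          congr 2
          field_simp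
          ring
      _ = ((m : ℝ) / (2 * l)) ^ m * ((64 * m * l : ℝ) ^ m * (E.card : ℝ) ^ l) := by
          rw [mul_pow, mul_assoc]
  exact le_of_mul_le_mul_left (hB.trans hfin) hpos

theorem rMom (h1 : S_Cvx) : S_Mom := by
  intro N _ E f m l hE hm hl hf
  have hl' : (0 : ℝ) < l := by exact_mod_cast hl
  have hEc : (0 : ℝ) < E.card := by exact_mod_cast hE.card_pos
  rw [Finset.sum_comm]
  have hx : ∀ x : ZMod N, ∑ a ∈ Fintype.piFinset (fun _ : Fin l => E),
      ((∑ i, f (x + a i)) / l - av E f x) ^ (2 * m) ≤ (64 * m / l : ℝ) ^ m * (E.card : ℝ) ^ l := by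
    intro x
    have hav : |av E f x| ≤ 1 := by
      unfold av
      rw [abs_div, abs_of_pos hEc, div_le_one hEc]
      refine (Finset.abs_sum_le_sum_abs _ _).trans ?_
      refine (Finset.sum_le_sum (fun b _ => hf (x + b))).trans ?_
      rw [Finset.sum_const, nsmul_eq_mul, mul_one]
    have hg : ∀ b : ZMod N, |f (x + b) - av E f x| ≤ 2 := by
      intro b
      refine (abs_sub _ _).trans ?_
      linarith [hf (x + b)]
    have h0 : ∑ b ∈ E, (f (x + b) - av E f x) = 0 := by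
      rw [Finset.sum_sub_distrib, Finset.sum_const, nsmul_eq_mul]
      unfold av
      field_simp
      ring
    have h2 := Mom_x h1 E (fun b => f (x + b) - av E f x) hg h0 m l hm hl
    have h3 : ∀ a ∈ Fintype.piFinset (fun _ : Fin l => E),
        ((∑ i, f (x + a i)) / l - av E f x) ^ (2 * m) =
          (∑ i, (f (x + a i) - av E f x)) ^ (2 * m) / (l : ℝ) ^ (2 * m) := by
      intro a _
      rw [← div_pow]
      congr 1
      rw [Finset.sum_sub_distrib, Finset.sum_const, Finset.card_univ, Fintype.card_fin, nsmul_eq_mul]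
      field_simp
    rw [Finset.sum_congr rfl h3, ← Finset.sum_div, div_le_iff₀ (by positivity)]
    refine h2.trans (le_of_eq ?_)
    have h4 : (64 * m / l : ℝ) ^ m * (l : ℝ) ^ (2 * m) = (64 * m * l : ℝ) ^ m := by
      rw [pow_mul, ← mul_pow]
      congr 1
      field_simp
    rw [← h4]
    ring
  calc ∑ x : ZMod N, ∑ a ∈ Fintype.piFinset (fun _ : Fin l => E),
        ((∑ i, f (x + a i)) / l - av E f x) ^ (2 * m)
      ≤ ∑ _x : ZMod N, (64 * m / l : ℝ) ^ m * (E.card : ℝ) ^ l := Finset.sum_le_sum (fun x _ => hx x)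
    _ = (64 * m / l : ℝ) ^ m * (E.card : ℝ) ^ l * N := by
        rw [Finset.sum_const, Finset.card_univ, ZMod.card, nsmul_eq_mul]
        ring

end Pool.Agent.SAN
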