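import Pool.Agent.Lib.MP_95b053_co.SAN.Spec

/-!
# MP_95b053_co, project SAN: characters near `1` (`Pos2`)
-/

set_option autoImplicit false

namespace Pool.Agent.SAN

open Real

theorem rPos2 : S_Pos2 := by
  intro N _ r T m δ h
  have h1 : r * (T : ZMod N) = (((r.val : ℤ) * T : ℤ) : ZMod N) := by
    push_cast
    rw [ZMod.natCast_val, ZMod.cast_id]
  rw [h1, ZMod.stdAddChar_coe]
  set ε : ℝ := (r.val : ℝ) * (T : ℝ) / N - m with hε
  have h2 : (2 * (π : ℂ) * Complex.I * (((r.val : ℤ) * T : ℤ) : ℂ) / (N : ℂ)) =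
      Complex.I * ((2 * π * ε : ℝ) : ℂ) + m * (2 * π * Complex.I) := by
    rw [hε]
    push_cast
    ring
  rw [h2, Complex.exp_add, Complex.exp_int_mul_two_pi_mul_I, mul_one]
  refine (Real.norm_exp_I_mul_ofReal_sub_one_le).trans ?_
  rw [Real.norm_eq_abs, abs_mul, abs_of_pos (by positivity : (0 : ℝ) < 2 * π)]
  have h3 : 2 * π ≤ 8 := by nlinarith [Real.pi_le_four]
  have h4 : 0 ≤ |ε| := abs_nonneg _
  nlinarith

end Pool.Agent.SAN
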