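import Pool.Agent.Lib.MP_95b053_co.Spec
import Pool.Agent.Lib.MP_95b053_co.MAS.Spec

/-!
# MP_95b053_co, project SAN (architect helper33): effective version, rank O(log^4 K)

THEOREM (mass systems, all n). P a nonempty set of n points of the plane, K ≥ 1, α > 0; if at least α n^2 lines contain three different
points p, q, r of P with c_i(r) r^ = a_i(p) p^ + b_i(q) q^, c_i(r) ≠ 0, for some i < K, then some line contains at least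
(2K/α)^(-3000) n^(1/(2^60 log2(2K/α)^4)) points of P. In the same way for the complete quadrilaterals.

PLAN. Croot-Sisask almost periods in L^(2m) (random sampling) and Chang's lemma give Sanders' version of Bogolyubov's lemma in ℤ/N: for
E ⊆ ℤ/N with N ≤ 2^j |E| the set 2E - 2E contains a Bohr set of rank at most 2^24 j^4 and width 2^(-5j-26) (S_San). It takes the place of
Bogolyubov's lemma (rank 2/α^2) in the chain of Lib/MP_95b053_co (BohrAP, Core0, AP, Line).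

RULES. Module X: file Pool/Agent/Lib/MP_95b053_co/SAN/X.lean, first line `import Pool.Agent.Lib.MP_95b053_co.SAN.Spec`, then
`namespace Pool.Agent.SAN`, `open Finset`, `open scoped Pointwise`, private lemmas with names starting with X_, final theorem
`theorem rX (h1 : S_A) ... : S_X` where the hypotheses are the statements listed under Uses, in this order. All modules are
independent. No sorry, standard axioms only, no straight double quotes, never the bang versions of congr and convert; module below 60 s.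
-/

set_option autoImplicit false

namespace Pool.Agent.SAN

open Finset
open scoped Pointwise

/-! ## Sampling -/

/-- the mean of `f` over `x + E` -/
noncomputable def av {N : ℕ} (E : Finset (ZMod N)) (f : ZMod N → ℝ) (x : ZMod N) : ℝ :=
  (∑ b ∈ E, f (x + b)) / E.card

/-- **Cvx.** Uses: nothing. Proof. exp is convex on the segment from -s to s: s y = ((1+y)/2) s + ((1-y)/2) (-s), so
exp (s y) ≤ ((1+y)/2) e^s + ((1-y)/2) e^(-s) = cosh s + y sinh s (convexOn_exp). -/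
def S_Cvx : Prop := ∀ s y : ℝ, |y| ≤ 1 → Real.exp (s * y) ≤ Real.cosh s + y * Real.sinh s

/-- **Mom.** Uses: S_Cvx. Proof. Fix x. g(b) = f(x+b) - av E f x, |g| ≤ 2, ∑_{b ∈ E} g(b) = 0; Y_a = ∑_i g(a_i), so the difference in the statement is Y_a/l. For real s, Cvx with 2s and
y = g(b)/2: ∑_{b ∈ E} exp (s g(b)) ≤ |E| cosh (2s) ≤ |E| exp (2 s^2) (Real.cosh_le_exp_half_sq), so ∑_a exp (s Y_a) = (∑_{b ∈ E} exp (s g(b)))^l ≤ |E|^l exp (2 s^2 l)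
(Finset.prod_univ_sum / Finset.sum_prod_piFinset, exp of a sum). For s > 0: (s|Y|)^(2m)/(2m)! ≤ exp (s|Y|) ≤ exp (s Y) + exp (-s Y) (Real.pow_div_factorial_le_exp). So
∑_a Y_a^(2m) ≤ (2m)! s^(-2m) 2 |E|^l exp (2 s^2 l). Take s = sqrt (m/(2l)): s^(2m) = (m/(2l))^m, 2 s^2 l = m; (2m)! ≤ (2m)^(2m). The bound is 2 (8 e m l)^m |E|^l ≤ (64 m l)^m |E|^l
(16 e ≤ 64). Divide by l^(2m) and sum over the N values of x. -/
def S_Mom : Prop := ∀ (N : ℕ) [NeZero N] (E : Finset (ZMod N)) (f : ZMod N → ℝ) (m l : ℕ), E.Nonempty → 1 ≤ m → 1 ≤ l →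
  (∀ x, |f x| ≤ 1) →
  ∑ a ∈ Fintype.piFinset (fun _ : Fin l => E), ∑ x : ZMod N, ((∑ i, f (x + a i)) / l - av E f x) ^ (2 * m) ≤
    (64 * m / l : ℝ) ^ m * (E.card : ℝ) ^ l * N

/-- **CrS** (Croot-Sisask). Uses: S_Mom. Proof. B = 2 (64 m/l)^m N. For a ∈ E^l let Q_a = ∑_x ((∑_i f (x + a_i))/l - av E f x)^(2m) ≥ 0. By Mom and Markov at most half of the |E|^l tuples a ∈ E^l have Q_a > B; L = {a ∈ E^l : Q_a ≤ B}, 2|L| ≥ |E|^l.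
The map L × ℤ/N → (Fin l → ℤ/N), (a, t) ↦ (a_i + t)_i: some z has at least |L| N/N^l preimages; T = {t : (z_i - t)_i ∈ L} (a is determined by z and t), so |T| N^l ≥ |L| N. For t ∈ T, Q_a ≤ B for a = z - t, and with M(x) = (∑_i f (x + z_i))/l:
(∑_i f (x + z_i - t))/l = M(x - t), so (substitute x + t) ∑_x (M(x) - av E f (x+t))^(2m) ≤ B. Finally (u - v)^(2m) ≤ 2^(2m-1) ((u - w)^(2m) + (w - v)^(2m)) with u = av E f (x+t), v = av E f (x+t'), w = M(x): the sum is at most 2^(2m-1) 2B = 4^m B. -/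
def S_CrS : Prop := ∀ (N : ℕ) [NeZero N] (E : Finset (ZMod N)) (f : ZMod N → ℝ) (m l : ℕ), E.Nonempty → 1 ≤ m → 1 ≤ l →
  (∀ x, |f x| ≤ 1) →
  ∃ T : Finset (ZMod N), (E.card : ℝ) ^ l * N ≤ 2 * T.card * (N : ℝ) ^ l ∧
    ∀ t ∈ T, ∀ t' ∈ T, ∑ x : ZMod N, (av E f (x + t) - av E f (x + t')) ^ (2 * m) ≤ 2 * (256 * m / l : ℝ) ^ m * N

/-- `HH E x` = the mean over b, c ∈ E of the indicator function of E - E at x + b - c -/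
noncomputable def HH {N : ℕ} (E : Finset (ZMod N)) (x : ZMod N) : ℝ :=
  (∑ b ∈ E, ∑ c ∈ E, if x + b - c ∈ E - E then (1 : ℝ) else 0) / (E.card : ℝ) ^ 2

/-- **Sup.** Uses: S_CrS. Proof. CrS with f = indicator of E - E, m = j, l = 2^21 j^3. (N/|E|)^l ≤ 2^(j l), so N ≤ 2 |T| (N/|E|)^l ≤ 2^(2^21 j^4 + 1) |T|; in particular T is not empty. HH E x = (∑_{c ∈ E} av E f (x - c))/|E|. With
D(y) = |av E f (y+t) - av E f (y+t')|: |HH E (x+t) - HH E (x+t')| ≤ (∑_{c ∈ E} D(x - c))/|E| =: δ, and by the power mean inequality (∑_{c ∈ E} D_c/|E|)^(2j) ≤ (∑_{c ∈ E} D_c^(2j))/|E|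
(Real.pow_arith_mean_le_arith_mean_pow with weights 1/|E|) δ^(2j) ≤ (∑_y D(y)^(2j))/|E| ≤ 2 (256 j/l)^j N/|E| ≤ 2^(j+1) (2^(-13)/j^2)^j ≤ (1/(24 j))^(2j),
because 2^(j+1) 576^j ≤ 2^(13 j) (576 ≤ 2^10, 2^(11j+1) ≤ 2^(13j)). So δ ≤ 1/(24 j) (both sides ≥ 0). -/
def S_Sup : Prop := ∀ (N : ℕ) [NeZero N] (E : Finset (ZMod N)) (j : ℕ), E.Nonempty → 1 ≤ j → (N : ℝ) ≤ 2 ^ j * E.card →
  ∃ T : Finset (ZMod N), T.Nonempty ∧ (N : ℝ) ≤ 2 ^ (2 ^ 21 * j ^ 4 + 1) * T.card ∧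
    ∀ x : ZMod N, ∀ t ∈ T, ∀ t' ∈ T, |HH E (x + t) - HH E (x + t')| ≤ 1 / (24 * j)

/-! ## Chang's lemma -/

/-- the exponential sum of S at r -/
noncomputable def es {N : ℕ} [NeZero N] (S : Finset (ZMod N)) (r : ZMod N) : ℂ := ∑ t ∈ S, ZMod.stdAddChar (r * t)

/-- dissociated -/
def Dis {N : ℕ} (L : Finset (ZMod N)) : Prop :=
  ∀ e : ZMod N → ℤ, (∀ x, |e x| ≤ 1) → ∑ x ∈ L, e x • x = 0 → ∀ x ∈ L, e x = 0

/-- **Dsc** (product formula). Uses: nothing. Proof. In ℂ: A + B Re (c_y e(yx)) = ∑_{s ∈ {-1,0,1}} w(s,y) e(s y x), w(0,y) = A, w(1,y) = (B/2) c_y, w(-1,y) = (B/2) conj c_y (e = ZMod.stdAddChar, conj e(z) = e(-z): AddChar.map_neg_eq_conj).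
Expand the product over y ∈ L (Finset.prod_sum, the index set ({-1,0,1} : Finset ℤ)): a sum over the choices ε of ∏ w(ε_y, y) e((∑ ε_y y) x). Sum over x: N if ∑ ε_y y = 0 and 0 otherwise (AddChar.sum_mulShift, see Bog_main in Lib/MP_95b053_co/Bog.lean);
L is dissociated, so only ε = 0 remains, with coefficient A^|L|. -/
def S_Dsc : Prop := ∀ (N : ℕ) [NeZero N] (L : Finset (ZMod N)) (c : ZMod N → ℂ) (A B : ℝ), Dis L →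
  ∑ x : ZMod N, ∏ y ∈ L, (A + B * (c y * (ZMod.stdAddChar (y * x) : ℂ)).re) = N * A ^ L.card

/-- **Cha** (Chang). Uses: S_Cvx, S_Dsc. Proof. Spec = {r : |T|/2 ≤ ‖es T r‖}. Let L ⊆ Spec be dissociated with the largest number n of elements (the empty set is dissociated). If r ∈ Spec \ L then L ∪ {r} is not dissociated: ∑_{x ∈ L} e_x x + e_r r = 0, not all e zero, so e_r ≠ 0
(L is dissociated), e_r = ± 1 and r = -e_r ∑ e_x x; if r ∈ L take the indicator of r. Size: c_y = conj (es T y)/‖es T y‖ (|T| > 0), Z(x) = ∑_{y ∈ L} Re (c_y e(yx)), ∑_{x ∈ T} Z(x) = ∑_y ‖es T y‖ ≥ n |T|/2. Jensen (convexity of exp, ConvexOn.map_sum_le):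
|T| exp (n/4) ≤ ∑_{x ∈ T} exp (Z(x)/2) ≤ ∑_{x ∈ ℤ/N} ∏_{y ∈ L} exp (Re (c_y e(yx))/2) ≤ ∑_x ∏_y (cosh (1/2) + sinh (1/2) Re (c_y e(yx))) = N cosh (1/2)^n ≤ N exp (n/8) (Cvx, the factors are > 0; Dsc; Real.cosh_le_exp_half_sq). So
exp (n/8) ≤ N/|T| ≤ 2^M, n ≤ 8 M log 2 ≤ 6 M (log 2 < 0.6931471808). -/
def S_Cha : Prop := ∀ (N : ℕ) [NeZero N] (T : Finset (ZMod N)) (M : ℕ), T.Nonempty → (N : ℝ) ≤ 2 ^ M * T.card →
  ∃ L : Finset (ZMod N), L.card ≤ 6 * M ∧ ∀ r : ZMod N, (T.card : ℝ) / 2 ≤ ‖es T r‖ →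
    ∃ e : ZMod N → ℤ, (∀ x, |e x| ≤ 1) ∧ r = ∑ x ∈ L, e x • x

/-! ## The smoothed function -/

/-- the mean of HH E over x + (k-fold sums of T) - (k-fold sums of T) -/
noncomputable def PP {N : ℕ} (E T : Finset (ZMod N)) (k : ℕ) (x : ZMod N) : ℝ :=
  (∑ a ∈ Fintype.piFinset (fun _ : Fin k => T), ∑ b ∈ Fintype.piFinset (fun _ : Fin k => T),
    HH E (x + ∑ i, a i - ∑ i, b i)) / (T.card : ℝ) ^ (2 * k)

/-- **Tel.** Uses: nothing. Proof. For all y, t, t' ∈ T: |HH E (y + t - t') - HH E y| ≤ δ (put x = y - t'). By induction on k: |HH E (x + ∑ a_i - ∑ b_i) - HH E x| ≤ k δ for a, b ∈ T^k (Fin.sum_univ_succ). The mean over the |T|^(2k) pairs. -/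
def S_Tel : Prop := ∀ (N : ℕ) [NeZero N] (E T : Finset (ZMod N)) (k : ℕ) (δ : ℝ), T.Nonempty →
  (∀ x : ZMod N, ∀ t ∈ T, ∀ t' ∈ T, |HH E (x + t) - HH E (x + t')| ≤ δ) →
  ∀ x, |PP E T k x - HH E x| ≤ k * δ

/-- **Inv** (Fourier inversion). Uses: nothing. Proof. w = indicator of E - E, ŵ(r) = ∑_{y ∈ E - E} e(-ry); w(z) = (1/N) ∑_r ŵ(r) e(rz) (orthogonality: ∑_r e(r(z-y)) = N or 0, AddChar.sum_mulShift, see Bog_main in Lib/MP_95b053_co/Bog.lean). So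
HH E y = (1/N) ∑_r ŵ(r) e(ry) (∑_{b,c ∈ E} e(r(b-c)))/|E|^2 and the inner sum is ‖es E r‖^2. PP E T k x = (1/N) ∑_r ŵ(r) (‖es E r‖^2/|E|^2) e(rx) (∑_a e(r ∑ a_i)) (∑_b e(-r ∑ b_i))/|T|^(2k), ∑_{a ∈ T^k} e(r ∑ a_i) = (es T r)^k
(Finset.prod_univ_sum), ∑_b e(-r ∑ b_i) = conj of it. -/
def S_Inv : Prop := ∀ (N : ℕ) [NeZero N] (E T : Finset (ZMod N)) (k : ℕ) (x : ZMod N), E.Nonempty → T.Nonempty →
  ((PP E T k x : ℝ) : ℂ) = (1 / N) * ∑ r : ZMod N, (∑ y ∈ E - E, ZMod.stdAddChar (-(r * y))) *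
    ((‖es E r‖ ^ 2 / (E.card : ℝ) ^ 2 * (‖es T r‖ / T.card) ^ (2 * k) : ℝ) : ℂ) * ZMod.stdAddChar (r * x)

/-- **Four.** Uses: S_Inv. Proof. PP x - PP 0 = (1/N) ∑_r ŵ(r) (‖es E r‖^2/|E|^2) (‖es T r‖/|T|)^(2k) (e(rx) - 1); |ŵ(r)| ≤ |E - E| ≤ N, ‖es T r‖ ≤ |T|. If |T|/2 ≤ ‖es T r‖ then ‖e(rx) - 1‖ ≤ ε; otherwise (‖es T r‖/|T|)^(2k) ≤ 4^(-k) and ‖e(rx) - 1‖ ≤ 2. So
the sum is at most ∑_r (‖es E r‖^2/|E|^2) (ε + 2/4^k) = (N |E|/|E|^2) (ε + 2/4^k) (Parseval ∑_r ‖es E r‖^2 = N |E|, see Bog_pars in Lib/MP_95b053_co/Bog.lean). -/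
def S_Four : Prop := ∀ (N : ℕ) [NeZero N] (E T : Finset (ZMod N)) (k : ℕ) (ε : ℝ) (x : ZMod N), E.Nonempty → T.Nonempty → 0 ≤ ε →
  (∀ r : ZMod N, (T.card : ℝ) / 2 ≤ ‖es T r‖ → ‖(ZMod.stdAddChar (r * x) : ℂ) - 1‖ ≤ ε) →
  |PP E T k x - PP E T k 0| ≤ (ε + 2 / 4 ^ k) * (N / E.card)

/-- **San** (Sanders). Uses: S_Sup, S_Cha, S_Tel, S_Four. Proof. T from Sup; L from Cha with M = 2^21 j^4 + 1: 6 M ≤ 2^24 j^4. k = 3j, δ = 1/(24 j), k δ = 1/8. Let x be as in the hypothesis. If r = ∑_{y ∈ L} e_y y, |e_y| ≤ 1, then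
‖e(rx) - 1‖ ≤ ∑_y ‖e(e_y y x) - 1‖ ≤ |L|/2^(5j+26) ≤ j^4/(4·2^(5j)) ≤ 1/(4·2^j) =: ε (‖uv - 1‖ ≤ ‖u - 1‖ + ‖v - 1‖ for ‖v‖ = 1, conj for e_y = -1; j ≤ 2^j). Four: |PP x - PP 0| ≤ (ε + 2/64^j) 2^j ≤ 1/4 + 2/32^j ≤ 5/16. HH 0 = 1 (b - c ∈ E - E).
HH x ≥ PP x - 1/8 ≥ PP 0 - 5/16 - 1/8 ≥ 1 - 1/8 - 5/16 - 1/8 > 0, so some x + b - c = a - d with a, b, c, d ∈ E: x = a + c - b - d. -/
def S_San : Prop := ∀ (N : ℕ) [NeZero N] (E : Finset (ZMod N)) (j : ℕ), E.Nonempty → 1 ≤ j → (N : ℝ) ≤ 2 ^ j * E.card →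
  ∃ L : Finset (ZMod N), L.card ≤ 2 ^ 24 * j ^ 4 ∧
    ∀ x : ZMod N, (∀ y ∈ L, ‖(ZMod.stdAddChar (y * x) : ℂ) - 1‖ ≤ 1 / 2 ^ (5 * j + 26)) →
      ∃ a ∈ E, ∃ b ∈ E, ∃ c ∈ E, ∃ d ∈ E, x = a + b - c - d

/-! ## Progressions and lines -/

/-- **Pos2.** Uses: nothing. MODEL: Lib/MP_95b053_co/Pos.lean. Proof. stdAddChar (r * T) = exp (2πi ε), ε = r.val T/N - m, and ‖exp (iθ) - 1‖ ≤ |θ| (Real.norm_exp_I_mul_ofReal_sub_one_le or the like), 2π ≤ 8. -/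
def S_Pos2 : Prop := ∀ (N : ℕ) [NeZero N] (r : ZMod N) (T m : ℤ) (δ : ℝ),
  |(r.val : ℝ) * (T : ℝ) / N - m| ≤ δ → ‖(ZMod.stdAddChar (r * (T : ZMod N)) : ℂ) - 1‖ ≤ 8 * δ

/-- **Core2.** Uses: S_San, S_Pos2. (The theorems rDir, rThick of Lib/MP_95b053_co, files Dir, Thick, namespace Pool.Agent.RR95, may be imported and used.) MODEL: Lib/MP_95b053_co/BohrAP.lean and Core0.lean (copy; the proof is in the docstrings of S_BohrAP and S_Core0 of Lib/MP_95b053_co/Spec.lean).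
Changes: N ≥ 1000/η; rThick gives E with |A| η N/13 ≤ |E|, so N ≤ 2^j |E| by hypothesis; L' from San; Q = L 2^(5j+29); Dir (g = ⌈ηN/2⌉, M = ⌊N/g⌋ > 1/η ≥ Q^(2^24 j^4) ≥ Q^|L'|) gives 0 < i < M with |r.val (i g)/N - m_r| ≤ 1/Q for r ∈ L'; for |n| ≤ L:
|r.val (n i g)/N - n m_r| ≤ L/Q = 2^(-5j-29), Pos2 gives ≤ 8·2^(-5j-29) = 2^(-5j-26), so n i g ∈ 2E - 2E by San. The rest as in Core0. -/
def S_Core2 : Prop := ∀ (A : Finset ℝ) (η : ℝ) (L j : ℕ), A.Nonempty → 0 < η → η ≤ 1 / 4 → 1 ≤ j →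
  13 ≤ 2 ^ j * (A.card * η) → (∀ y ∈ 6 • A - 6 • A, y ≠ 0 → ∀ k : ℤ, η ≤ |y - k|) →
  1 ≤ L → ((L * 2 ^ (5 * j + 29) : ℕ) : ℝ) ^ (2 ^ 24 * j ^ 4) * η ≤ 1 →
  ∃ x : ℝ, x ≠ 0 ∧ ∀ n : ℤ, |n| ≤ L →
    ∃ a ∈ A, ∃ b ∈ A, ∃ c ∈ A, ∃ d ∈ A, (n : ℝ) * x = a + b - c - d

/-- **AP2.** Uses: S_Core2. (The theorems rFun, rCirc of Lib/MP_95b053_co may be imported and used.) MODEL: Lib/MP_95b053_co/AP.lean (copy; proof in the docstring of S_AP there). Changes: j = 12 h + 6, η = 1/(4 K^12 n), n = |V|: 2^j n η = 2^j/(4 K^12) ≥ 16 ≥ 13;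
5j + 29 = 60 h + 59 ≤ 119 h; 2^24 j^4 ≤ 2^24 (18 h)^4 ≤ 2^41 h^4; so (L 2^(5j+29))^(2^24 j^4) η ≤ (L 2^(119h))^(2^41 h^4)/n ≤ 1 (the base is ≥ 1, K ≥ 1). n ≥ 2 because (L 2^(119h))^(..) ≥ 2. -/
def S_AP2 : Prop := ∀ (V : Finset (ℝ × ℝ × ℝ)) (K : ℝ) (h L : ℕ), V.Nonempty →
  ((V - V).card : ℝ) ≤ K * V.card → K ≤ 2 ^ h → 1 ≤ h → 1 ≤ L → ((L * 2 ^ (119 * h) : ℕ) : ℝ) ^ (2 ^ 41 * h ^ 4) ≤ V.card →
  ∃ v : ℝ × ℝ × ℝ, v ≠ 0 ∧ ∀ n : ℤ, |n| ≤ L →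
    ∃ a ∈ V, ∃ b ∈ V, ∃ c ∈ V, ∃ d ∈ V, (n : ℝ) • v = a + b - c - d

/-- **Fin2.** Uses: S_AP2. (The theorem rLine of Lib/MP_95b053_co/Line.lean, namespace Pool.Agent.RR95, may be imported and used.) Proof. D = 2^41 h^4. If |V| < (2^(119h))^D take T = {a point}, v = 0. Otherwise let L be the largest natural number with (L 2^(119h))^D ≤ |V| (L ≥ 1, L ≤ |V|). AP2 and
Line: T with 2L + 1 ≤ K^5 |T| ≤ 2^(5h) |T| (1 ≤ K because |V| ≤ |V - V|), and |V| < ((L+1) 2^(119h))^D ≤ ((2L+1) 2^(119h))^D ≤ (2^(124h) |T|)^D. -/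
def S_Fin2 : Prop := ∀ (V : Finset (ℝ × ℝ × ℝ)) (K : ℝ) (h : ℕ), V.Nonempty →
  ((V - V).card : ℝ) ≤ K * V.card → K ≤ 2 ^ h → 1 ≤ h →
  ∃ (a0 v : ℝ × ℝ × ℝ) (T : Finset (ℝ × ℝ × ℝ)), T ⊆ V ∧ T.Nonempty ∧ (∀ q ∈ T, ∃ s : ℝ, q = a0 + s • v) ∧
    (V.card : ℝ) ≤ (2 ^ (124 * h) * T.card : ℝ) ^ (2 ^ 41 * h ^ 4)

/-- **Uni** (mass systems, all n). Uses: S_Fin2, Pool.Agent.MAS.S_MPair, Pool.Agent.MAS.S_MBack, Pool.Agent.MAS.S_Small2. MODEL: Lib/MP_95b053_co/MAS/Main.lean. Proof. K ≥ 1 (otherwise massLines is empty). i from MPair, β = α/K ≤ 1 (at most n^2 pairs), u = 2/β = 2K/α ≥ 2, b = log2 u ≥ 1. Small2: V ⊆ wup P (a i),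
|V| ≥ (β^2/4) n = n/u^2, |V - V| ≤ 2^23 β^(-20) |V| = 2^3 u^20 |V| ≤ u^23 |V|. h = ⌈23 b⌉ ≤ 24 b, u^23 = 2^(23b) ≤ 2^h. Fin2: |V| ≤ (2^(124h) |T|)^D, D = 2^41 h^4 ≤ 2^60 b^4 =: D' (24^4 ≤ 2^19), 2^(124h) ≤ u^2976. So n ≤ u^2 (u^2976 |T|)^D' ≤ (u^2978 |T|)^D' (real powers),
n^(1/D') ≤ u^2978 |T| ≤ u^3000 |T|. MBack gives the line. -/
def S_Uni : Prop := ∀ (K : ℕ) (P : Finset (ℝ × ℝ)) (a b c : Fin K → ℝ × ℝ → ℝ) (α : ℝ), P.Nonempty → 0 < α →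
  α * (P.card : ℝ) ^ 2 ≤ ((Pool.Agent.MAS.massLines K P a b c).ncard : ℝ) →
  ∃ L : AffineSubspace ℝ (ℝ × ℝ), Module.finrank ℝ L.direction = 1 ∧
    (P.card : ℝ) ^ (1 / (2 ^ 60 * (Real.logb 2 (2 * K / α)) ^ 4)) ≤
      (2 * K / α) ^ 3000 * (((P : Set (ℝ × ℝ)) ∩ (L : Set (ℝ × ℝ))).ncard : ℝ)

end Pool.Agent.SAN
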