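import Pool.Agent.Lib.MP_95b053_co.Q.MainQ
import Pool.Agent.Lib.MP_95b053_co.Q2.Mid2
import Pool.Agent.Lib.MP_95b053_co.SAN.Spec

/-!
# Complete quadrilaterals: a bound for all n
-/

set_option autoImplicit false

namespace Pool.Agent.QQ95

open Finset
open scoped Pointwise

/-- The dichotomy with an explicit constant. -/
theorem dich3 (K K' C0 θ : ℝ) (hK1 : 1 ≤ K) (hK' : 2 * K * (2 * K ^ 2) ^ 9 ≤ K')
    (hF : ∀ V : Finset (ℝ × ℝ × ℝ), V.Nonempty → ((V - V).card : ℝ) ≤ K' * V.card →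
      ∃ (a0 v : ℝ × ℝ × ℝ) (T : Finset (ℝ × ℝ × ℝ)), T ⊆ V ∧
        (∀ q ∈ T, ∃ s : ℝ, q = a0 + s • v) ∧ (V.card : ℝ) ^ θ ≤ C0 * T.card)
    (hC0 : 0 < C0) (hθ0 : 0 ≤ θ) (hθ1 : θ ≤ 1) (X : Finset Hg) (r : ℝ) (hXne : X.Nonempty)
    (hr : 1 ≤ r) (hinj : Set.InjOn Hg.u (X : Set Hg))
    (hK : ((X⁻¹ * X).card : ℝ) ≤ K * X.card)
    (hline : ∀ (p v : ℝ × ℝ × ℝ), ∀ T ⊆ X, (∀ x ∈ T, ∃ s : ℝ, x.u = p + s • v) →
      (T.card : ℝ) ≤ r) :
    (Real.sqrt X.card) ^ θ ≤ (2 * K + 16 * K ^ 5 + C0 * (2 * (2 * K ^ 2) ^ 8)) * r := by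
  set C1 : ℝ := 2 * K + 16 * K ^ 5 + C0 * (2 * (2 * K ^ 2) ^ 8) with hC1
  have hA : 0 ≤ 2 * K := by linarith
  have hB : 0 ≤ 16 * K ^ 5 := by positivity
  have hC : 0 ≤ C0 * (2 * (2 * K ^ 2) ^ 8) := by positivity
  have hr0 : 0 < r := by linarith
  have hX1 : (1 : ℝ) ≤ Real.sqrt X.card := by
    rw [Real.one_le_sqrt]
    exact_mod_cast hXne.card_pos
  have hpow : (Real.sqrt X.card) ^ θ ≤ Real.sqrt X.card := by
    calc (Real.sqrt X.card) ^ θ ≤ (Real.sqrt X.card) ^ (1 : ℝ) :=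
          Real.rpow_le_rpow_of_exponent_le hX1 hθ1
      _ = Real.sqrt X.card := Real.rpow_one _
  rcases lt_or_ge (Real.sqrt X.card) (2 * K) with hsm | hbig
  · calc (Real.sqrt X.card) ^ θ ≤ 2 * K := hpow.trans hsm.le
      _ ≤ C1 * 1 := by rw [hC1]; linarith
      _ ≤ C1 * r := mul_le_mul_of_nonneg_left hr (by positivity)
  · obtain ⟨S, h1, hS, hXS, hgr⟩ := popq X K hXne hK
    rcases lt_or_ge ((trs S 4).card : ℝ) (Real.sqrt X.card) with hfew | hmany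
    · obtain ⟨p, v, T, hT, hTl, hTc⟩ := caseA X S K hK1 hinj h1 hS hXS hgr hbig hfew
      have hTr := hline p v T hT hTl
      calc (Real.sqrt X.card) ^ θ ≤ 16 * K ^ 5 * T.card := hpow.trans hTc
        _ ≤ 16 * K ^ 5 * r := mul_le_mul_of_nonneg_left hTr hB
        _ ≤ C1 * r := mul_le_mul_of_nonneg_right (by rw [hC1]; linarith) hr0.le
    · obtain ⟨p, v, T, hT, hTl, hTc⟩ :=
        caseB2 X S K K' C0 θ hK1 hXne hK' hF hC0 h1 hS hXS hgr
      have hTr := hline p v T hT hTl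
      calc (Real.sqrt X.card) ^ θ ≤ ((trs S 4).card : ℝ) ^ θ :=
            Real.rpow_le_rpow (by positivity) hmany hθ0
        _ ≤ C0 * (2 * (2 * K ^ 2) ^ 8) * T.card := hTc
        _ ≤ C0 * (2 * (2 * K ^ 2) ^ 8) * r := mul_le_mul_of_nonneg_left hTr hC
        _ ≤ C1 * r := mul_le_mul_of_nonneg_right (by rw [hC1]; linarith) hr0.le

theorem mainQ3 (hFin : Pool.Agent.SAN.S_Fin2) (k : ℕ) (c : ℝ) (hc : 0 < c) (hc1 : c ≤ 1)
    (P : Finset (ℝ × ℝ)) (T : Finset (Finset (ℝ × ℝ))) (hP2 : 2 ≤ P.card)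
    (hT : ∀ t ∈ T, t ⊆ P ∧ t.card = 3 ∧ Collinear ℝ (t : Set (ℝ × ℝ)))
    (hk : ∀ p q : ℝ × ℝ, p ≠ q → (T.filter fun t => p ∈ t ∧ q ∈ t).card ≤ k)
    (hq : c * (P.card : ℝ) ^ 3 ≤ ({q : Fin 6 → ℝ × ℝ | Quad T q}.ncard : ℝ)) :
    ∃ L : AffineSubspace ℝ (ℝ × ℝ), Module.finrank ℝ L.direction = 1 ∧
      (P.card : ℝ) ^ (1 / (2 ^ 94 * Real.logb 2 (2 * k / c) ^ 4)) ≤
        (2 * k / c) ^ 1000000 * (((P : Set (ℝ × ℝ)) ∩ (L : Set (ℝ × ℝ))).ncard : ℝ) := by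
  classical
  -- the choice of the quadrilaterals
  have hstart : ∃ Θ : Finset (Fin 6 → ℝ × ℝ),
      c * (P.card : ℝ) ^ 3 ≤ (k : ℝ) ^ 7 * Θ.card ∧ Good P Θ := by
    have hfin : {q : Fin 6 → ℝ × ℝ | Quad T q}.Finite := by
      apply (Fintype.piFinset fun _ : Fin 6 => P).finite_toSet.subset
      intro q hq
      rw [Finset.mem_coe, Fintype.mem_piFinset]
      intro i
      have m1 := (hT _ hq.2.1).1
      have m2 := (hT _ hq.2.2.1).1
      have m3 := (hT _ hq.2.2.2.1).1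
      fin_cases i
      · exact m1 (by simp)
      · exact m1 (by simp)
      · exact m2 (by simp)
      · exact m1 (by simp)
      · exact m2 (by simp)
      · exact m3 (by simp)
    rw [Set.ncard_eq_toFinset_card _ hfin] at hq
    obtain ⟨Θ, hcard, hG⟩ := picks P T k hT hk hfin.toFinset (by
      intro q hq
      exact (Set.Finite.mem_toFinset hfin).1 hq)
    have h3 : ((hfin.toFinset.card : ℕ) : ℝ) ≤ (k : ℝ) ^ 7 * Θ.card := by exact_mod_cast hcard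
    exact ⟨Θ, hq.trans h3, hG⟩
  obtain ⟨Θ, hΘ', hG⟩ := hstart
  have hPne : P.Nonempty := Finset.card_pos.1 (by omega)
  have hn1 : (1 : ℝ) ≤ P.card := by exact_mod_cast hPne.card_pos
  have hnpos : (0 : ℝ) < P.card := by linarith
  have hk0 : 0 < k := by
    rcases Nat.eq_zero_or_pos k with hk0 | hk0
    · exfalso
      rw [hk0] at hΘ'
      have : 0 < c * (P.card : ℝ) ^ 3 := by positivity
      simp only [Nat.cast_zero, ne_eq, OfNat.ofNat_ne_zero, not_false_eq_true, zero_pow,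
        zero_mul] at hΘ'
      linarith
    · exact hk0
  have hk1 : (1 : ℝ) ≤ k := by exact_mod_cast hk0
  have hk0' : (0 : ℝ) < k := by linarith
  set u : ℝ := 2 * k / c with hu
  have hu2 : 2 ≤ u := by
    rw [hu, le_div_iff₀ hc]
    nlinarith
  have hu0 : 0 < u := by linarith
  have hu1 : 1 ≤ u := by linarith
  set η : ℝ := c / k ^ 7 with hη
  have hη0 : 0 < η := by positivity
  have hηu : (u ^ 7)⁻¹ ≤ η := by
    rw [hη, hu, div_pow, inv_div, mul_pow, div_le_div_iff₀ (by positivity) (by positivity)]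
    have h3 : c ^ 7 ≤ c := by
      calc c ^ 7 ≤ c ^ 1 := pow_le_pow_of_le_one hc.le hc1 (by norm_num)
        _ = c := pow_one c
    have h4 : (0 : ℝ) ≤ (k : ℝ) ^ 7 := by positivity
    nlinarith
  set α : ℝ := η ^ 8 / 4 with hα
  have hα0 : 0 < α := by positivity
  have hαu : (u ^ 58)⁻¹ ≤ α := by
    have h3 : ((u ^ 7)⁻¹) ^ 8 ≤ η ^ 8 := pow_le_pow_left₀ (by positivity) hηu 8
    have h4 : (u ^ 58)⁻¹ ≤ ((u ^ 7)⁻¹) ^ 8 / 4 := by
      rw [inv_pow, ← pow_mul, div_eq_mul_inv, ← mul_inv]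
      apply inv_anti₀ (by positivity)
      have h5 : (4 : ℝ) ≤ u ^ 2 := by nlinarith
      calc u ^ (7 * 8) * 4 ≤ u ^ (7 * 8) * u ^ 2 := mul_le_mul_of_nonneg_left h5 (by positivity)
        _ = u ^ 58 := by rw [← pow_add]
    rw [hα]
    linarith
  have hKα : (2 : ℝ) ^ 18 ≤ u ^ 366 * α ^ 6 := by
    have h3 : ((u ^ 58)⁻¹) ^ 6 ≤ α ^ 6 := pow_le_pow_left₀ (by positivity) hαu 6
    have h4 : u ^ 366 * ((u ^ 58)⁻¹) ^ 6 = u ^ 18 := by
      rw [inv_pow, ← pow_mul, show (366 : ℕ) = 18 + 58 * 6 by norm_num, pow_add]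
      field_simp
    calc (2 : ℝ) ^ 18 ≤ u ^ 18 := pow_le_pow_left₀ (by norm_num) hu2 18
      _ = u ^ 366 * ((u ^ 58)⁻¹) ^ 6 := h4.symm
      _ ≤ u ^ 366 * α ^ 6 := mul_le_mul_of_nonneg_left h3 (by positivity)
  have hK1 : (1 : ℝ) ≤ u ^ 366 := one_le_pow₀ hu1
  have hK' : 2 * u ^ 366 * (2 * (u ^ 366) ^ 2) ^ 9 ≤ u ^ 6964 := by
    have h5 : 2 * u ^ 366 * (2 * (u ^ 366) ^ 2) ^ 9 = 2 ^ 10 * u ^ 6954 := by
      rw [mul_pow, ← pow_mul, ← pow_mul]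
      ring
    rw [h5]
    calc 2 ^ 10 * u ^ 6954 ≤ u ^ 10 * u ^ 6954 :=
          mul_le_mul_of_nonneg_right (pow_le_pow_left₀ (by norm_num) hu2 10) (by positivity)
      _ = u ^ 6964 := by rw [← pow_add]
  have h60 : (u ^ 60)⁻¹ ≤ α / 4 := by
    have h7 : (u ^ 60)⁻¹ ≤ (u ^ 58)⁻¹ / 4 := by
      rw [div_eq_mul_inv, ← mul_inv]
      apply inv_anti₀ (by positivity)
      have h8 : (4 : ℝ) ≤ u ^ 2 := by nlinarith
      calc u ^ 58 * 4 ≤ u ^ 58 * u ^ 2 := mul_le_mul_of_nonneg_left h8 (by positivity)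
        _ = u ^ 60 := by rw [← pow_add]
    linarith
  -- the exponents
  set b : ℝ := Real.logb 2 u with hb
  have hb1 : 1 ≤ b := by
    rw [hb, Real.le_logb_iff_rpow_le (by norm_num) hu0, Real.rpow_one]
    exact hu2
  have hub : (2 : ℝ) ^ b = u := by
    rw [hb]
    exact Real.rpow_logb (by norm_num) (by norm_num) hu0
  set h : ℕ := ⌈6964 * b⌉₊ with hh
  have hh1 : 6964 * b ≤ h := Nat.le_ceil _
  have hh2 : (h : ℝ) ≤ 6965 * b := by
    have := Nat.ceil_lt_add_one (by positivity : 0 ≤ 6964 * b)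
    rw [hh]
    linarith
  have hhpos : 1 ≤ h := by
    have : (1 : ℝ) ≤ h := by linarith
    exact_mod_cast this
  have hKh : u ^ 6964 ≤ (2 : ℝ) ^ h := by
    rw [← hub, ← Real.rpow_natCast, ← Real.rpow_natCast 2 h, ← Real.rpow_mul (by norm_num)]
    apply Real.rpow_le_rpow_of_exponent_le (by norm_num)
    push_cast
    linarith
  set D : ℕ := 2 ^ 41 * h ^ 4 with hD
  have hDpos : (0 : ℝ) < D := by
    rw [hD]
    have : (0 : ℝ) < h := by exact_mod_cast hhpos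
    push_cast
    positivity
  have hD1 : (1 : ℝ) ≤ D := by
    have : 0 < D := by exact_mod_cast hDpos
    exact_mod_cast this
  set θ : ℝ := 1 / D with hθ
  have hθ0 : 0 < θ := by positivity
  have hθ1 : θ ≤ 1 := by
    rw [hθ, div_le_one hDpos]
    exact hD1
  set C0 : ℝ := 2 ^ (124 * h) with hC0def
  have hC0 : 0 < C0 := by positivity
  have hF : ∀ V : Finset (ℝ × ℝ × ℝ), V.Nonempty → ((V - V).card : ℝ) ≤ u ^ 6964 * V.card →
      ∃ (a0 v : ℝ × ℝ × ℝ) (T : Finset (ℝ × ℝ × ℝ)), T ⊆ V ∧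
        (∀ q ∈ T, ∃ s : ℝ, q = a0 + s • v) ∧ (V.card : ℝ) ^ θ ≤ C0 * T.card := by
    intro V hV hVV
    obtain ⟨a0, v, T, hTV, _, hTl, hTc⟩ := hFin V (u ^ 6964) h hV hVV hKh hhpos
    refine ⟨a0, v, T, hTV, hTl, ?_⟩
    have h1 := Real.rpow_le_rpow (Nat.cast_nonneg _) hTc hθ0.le
    refine h1.trans (le_of_eq ?_)
    rw [← Real.rpow_natCast, ← Real.rpow_mul (by positivity), hθ, mul_one_div]
    rw [show (((2 ^ 41 * h ^ 4 : ℕ) : ℝ)) / D = 1 from div_self hDpos.ne', Real.rpow_one]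
  set C1 : ℝ := 2 * u ^ 366 + 16 * (u ^ 366) ^ 5 + C0 * (2 * (2 * (u ^ 366) ^ 2) ^ 8) with hC1
  have hC1pos : 0 < C1 := by positivity
  have hDi : ∀ (X : Finset Hg) (r : ℝ), X.Nonempty → 1 ≤ r →
      Set.InjOn Hg.u (X : Set Hg) → ((X⁻¹ * X).card : ℝ) ≤ u ^ 366 * X.card →
      (∀ (p v : ℝ × ℝ × ℝ), ∀ T ⊆ X, (∀ x ∈ T, ∃ s : ℝ, x.u = p + s • v) → (T.card : ℝ) ≤ r) →
      (Real.sqrt X.card) ^ θ ≤ C1 * r := fun X r h1 h2 h3 h4 h5 =>
    dich3 (u ^ 366) (u ^ 6964) C0 θ hK1 hK' hF hC0 hθ0.le hθ1 X r h1 h2 h3 h4 h5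
  obtain ⟨L0, hL0, h2, hmax⟩ := exists_max_line P hP2
  refine ⟨L0, hL0, ?_⟩
  have hΘ : η * (P.card : ℝ) ^ 3 ≤ Θ.card := by
    rw [hη, div_mul_eq_mul_div, div_le_iff₀ (by positivity)]
    linarith
  set r : ℝ := (((P : Set (ℝ × ℝ)) ∩ (L0 : Set (ℝ × ℝ))).ncard : ℝ) with hr
  have hr2 : (2 : ℝ) ≤ r := by
    rw [hr]
    exact_mod_cast h2
  have hr0 : 0 < r := by linarith
  have hline : ∀ L : AffineSubspace ℝ (ℝ × ℝ), Module.finrank ℝ L.direction = 1 →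
      (((P : Set (ℝ × ℝ)) ∩ (L : Set (ℝ × ℝ))).ncard : ℝ) ≤ r := by
    intro L hL
    rw [hr]
    exact_mod_cast hmax L hL
  have hmid : α / 4 * P.card ≤ ((C1 * r) ^ D) ^ 2 := by
    refine midG hG hPne η α (u ^ 366) _ hη0 (by rw [hα]; ring) hΘ hKα ?_
    intro F hFs X hX hXne hXX
    have h3 := half2 (u ^ 366) C1 θ hDi P F hFs X hX hXne r (by linarith) hXX hline
    have h4 : Real.sqrt X.card ≤ (C1 * r) ^ D := by
      have h5 := pow_le_pow_left₀ (by positivity) h3 D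
      rwa [← Real.rpow_natCast, ← Real.rpow_mul (Real.sqrt_nonneg _), hθ,
        one_div_mul_cancel hDpos.ne', Real.rpow_one] at h5
    have h6 : (Real.sqrt X.card) ^ 2 ≤ ((C1 * r) ^ D) ^ 2 :=
      pow_le_pow_left₀ (Real.sqrt_nonneg _) h4 2
    rwa [Real.sq_sqrt (Nat.cast_nonneg _)] at h6
  -- the numbers
  have hC0u : C0 ≤ u ^ 863660 := by
    rw [hC0def, ← hub, ← Real.rpow_natCast, ← Real.rpow_natCast, ← Real.rpow_mul (by norm_num)]
    apply Real.rpow_le_rpow_of_exponent_le (by norm_num)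
    push_cast
    linarith
  have hC1u : C1 ≤ u ^ 870000 := by
    have e1 : 2 * u ^ 366 ≤ u ^ 869998 := by
      calc 2 * u ^ 366 ≤ u * u ^ 366 := mul_le_mul_of_nonneg_right hu2 (by positivity)
        _ = u ^ 367 := by rw [← pow_succ']
        _ ≤ u ^ 869998 := pow_le_pow_right₀ hu1 (by norm_num)
    have e2 : 16 * (u ^ 366) ^ 5 ≤ u ^ 869998 := by
      have h16 : (16 : ℝ) ≤ u ^ 4 := by
        calc (16 : ℝ) = 2 ^ 4 := by norm_num
          _ ≤ u ^ 4 := pow_le_pow_left₀ (by norm_num) hu2 4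
      calc 16 * (u ^ 366) ^ 5 ≤ u ^ 4 * (u ^ 366) ^ 5 :=
            mul_le_mul_of_nonneg_right h16 (by positivity)
        _ = u ^ 1834 := by rw [← pow_mul, ← pow_add]
        _ ≤ u ^ 869998 := pow_le_pow_right₀ hu1 (by norm_num)
    have e3 : C0 * (2 * (2 * (u ^ 366) ^ 2) ^ 8) ≤ u ^ 869998 := by
      have h9 : (2 * (2 * (u ^ 366) ^ 2) ^ 8 : ℝ) ≤ u ^ 5865 := by
        calc (2 * (2 * (u ^ 366) ^ 2) ^ 8 : ℝ) = 2 ^ 9 * u ^ 5856 := by
              rw [mul_pow, ← pow_mul, ← pow_mul]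
              ring
          _ ≤ u ^ 9 * u ^ 5856 :=
              mul_le_mul_of_nonneg_right (pow_le_pow_left₀ (by norm_num) hu2 9) (by positivity)
          _ = u ^ 5865 := by rw [← pow_add]
      calc C0 * (2 * (2 * (u ^ 366) ^ 2) ^ 8) ≤ u ^ 863660 * u ^ 5865 :=
            mul_le_mul hC0u h9 (by positivity) (by positivity)
        _ = u ^ 869525 := by rw [← pow_add]
        _ ≤ u ^ 869998 := pow_le_pow_right₀ hu1 (by norm_num)
    calc C1 ≤ u ^ 869998 + u ^ 869998 + u ^ 869998 := by rw [hC1]; linarith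
      _ = 3 * u ^ 869998 := by ring
      _ ≤ u ^ 2 * u ^ 869998 := mul_le_mul_of_nonneg_right (by nlinarith) (by positivity)
      _ = u ^ 870000 := by rw [← pow_add]
  have hbase : (1 : ℝ) ≤ u ^ 1000000 * r := by
    have := one_le_pow₀ hu1 (n := 1000000)
    nlinarith
  have hn : (P.card : ℝ) ≤ (u ^ 1000000 * r) ^ (D * 2) := by
    have h9 : (u ^ 60)⁻¹ * P.card ≤ ((C1 * r) ^ D) ^ 2 :=
      (mul_le_mul_of_nonneg_right h60 hnpos.le).trans hmid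
    have h10 : (P.card : ℝ) ≤ u ^ 60 * ((C1 * r) ^ D) ^ 2 := by
      rwa [inv_mul_le_iff₀ (by positivity)] at h9
    have hD0 : D * 2 ≠ 0 := by
      have : 0 < D := by exact_mod_cast hDpos
      omega
    calc (P.card : ℝ) ≤ u ^ 60 * ((C1 * r) ^ D) ^ 2 := h10
      _ ≤ (u ^ 60) ^ (D * 2) * ((C1 * r) ^ D) ^ 2 :=
          mul_le_mul_of_nonneg_right (le_self_pow₀ (one_le_pow₀ hu1) hD0) (by positivity)
      _ = (u ^ 60 * (C1 * r)) ^ (D * 2) := by rw [← pow_mul (C1 * r) D 2, ← mul_pow]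
      _ ≤ (u ^ 1000000 * r) ^ (D * 2) := by
          apply pow_le_pow_left₀ (by positivity)
          calc u ^ 60 * (C1 * r) = (u ^ 60 * C1) * r := by ring
            _ ≤ (u ^ 60 * u ^ 870000) * r := by gcongr
            _ = u ^ 870060 * r := by rw [← pow_add]
            _ ≤ u ^ 1000000 * r :=
                mul_le_mul_of_nonneg_right (pow_le_pow_right₀ hu1 (by norm_num)) hr0.le
  have hDb : ((D * 2 : ℕ) : ℝ) ≤ 2 ^ 94 * b ^ 4 := by
    have h4 : (h : ℝ) ^ 4 ≤ (6965 * b) ^ 4 := pow_le_pow_left₀ (Nat.cast_nonneg _) hh2 4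
    have h5 : (6965 * b) ^ 4 ≤ 2 ^ 52 * b ^ 4 := by
      rw [mul_pow]
      exact mul_le_mul_of_nonneg_right (by norm_num) (by positivity)
    rw [hD]
    push_cast
    nlinarith
  have hB0 : (0 : ℝ) < 2 ^ 94 * b ^ 4 := by positivity
  have hfin1 : (P.card : ℝ) ≤ (u ^ 1000000 * r) ^ (2 ^ 94 * b ^ 4 : ℝ) := by
    calc (P.card : ℝ) ≤ (u ^ 1000000 * r) ^ (D * 2) := hn
      _ = (u ^ 1000000 * r) ^ ((D * 2 : ℕ) : ℝ) := (Real.rpow_natCast _ _).symm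
      _ ≤ (u ^ 1000000 * r) ^ (2 ^ 94 * b ^ 4 : ℝ) :=
          Real.rpow_le_rpow_of_exponent_le hbase hDb
  have h20 := Real.rpow_le_rpow hnpos.le hfin1 (by positivity : (0 : ℝ) ≤ 1 / (2 ^ 94 * b ^ 4))
  rwa [← Real.rpow_mul (by positivity), mul_one_div_cancel hB0.ne', Real.rpow_one] at h20

end Pool.Agent.QQ95
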