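import Pool.Agent.Lib.MP_95b053_co.SAN.Qd

/-!
# Complete quadrilaterals with six different points
-/

set_option autoImplicit false

namespace Pool.Agent.QQ95

open Finset

/-- Many complete quadrilaterals with six different points. -/
theorem corQ3 (hFin : Pool.Agent.SAN.S_Fin2) (P : Finset (ℝ × ℝ)) (c : ℝ) (hP : 2 ≤ P.card)
    (hc : 0 < c) (hc1 : c ≤ 1)
    (hq : c * (P.card : ℝ) ^ 3 ≤ ({q : Fin 6 → ℝ × ℝ | QuadP P q}.ncard : ℝ)) :
    ∃ L : AffineSubspace ℝ (ℝ × ℝ), Module.finrank ℝ L.direction = 1 ∧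
      c / 2 * Real.exp ((Real.log P.card) ^ ((1 : ℝ) / 5) / 2 ^ 24) ≤
        (((P : Set (ℝ × ℝ)) ∩ (L : Set (ℝ × ℝ))).ncard : ℝ) := by
  classical
  obtain ⟨L0, hL0, h2, hmax⟩ := exists_max_line P hP
  refine ⟨L0, hL0, ?_⟩
  set M : ℕ := ((P : Set (ℝ × ℝ)) ∩ (L0 : Set (ℝ × ℝ))).ncard with hM
  set T : Finset (Finset (ℝ × ℝ)) :=
    (P.powersetCard 3).filter fun t => Collinear ℝ (t : Set (ℝ × ℝ)) with hT
  have hTd : ∀ t ∈ T, t ⊆ P ∧ t.card = 3 ∧ Collinear ℝ (t : Set (ℝ × ℝ)) := by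
    intro t ht
    obtain ⟨h3, h4⟩ := Finset.mem_filter.1 ht
    obtain ⟨h5, h6⟩ := Finset.mem_powersetCard.1 h3
    exact ⟨h5, h6, h4⟩
  have hk : ∀ p q : ℝ × ℝ, p ≠ q → (T.filter fun t => p ∈ t ∧ q ∈ t).card ≤ M := by
    intro p q hpq
    refine le_trans ?_ (hmax (line[ℝ, p, q]) (back_rank p q hpq))
    have hfin : ((P : Set (ℝ × ℝ)) ∩ ((line[ℝ, p, q] : AffineSubspace ℝ (ℝ × ℝ)) :
        Set (ℝ × ℝ))).Finite := (Finset.finite_toSet P).subset Set.inter_subset_left
    rw [Set.ncard_eq_toFinset_card _ hfin]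
    have hsub : (T.filter fun t => p ∈ t ∧ q ∈ t) ⊆
        hfin.toFinset.image fun v => ({p, q, v} : Finset (ℝ × ℝ)) := by
      intro t ht
      obtain ⟨h3, hp, hq'⟩ := Finset.mem_filter.1 ht
      obtain ⟨h4, h5, h6⟩ := hTd t h3
      have h7 : ((t.erase p).erase q).card = 1 := by
        rw [Finset.card_erase_of_mem (Finset.mem_erase.2 ⟨hpq.symm, hq'⟩),
          Finset.card_erase_of_mem hp, h5]
      obtain ⟨v, hv⟩ := Finset.card_eq_one.1 h7
      have hvt : v ∈ (t.erase p).erase q := by rw [hv]; simp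
      have hvq := Finset.mem_erase.1 hvt
      have hvp := Finset.mem_erase.1 hvq.2
      have hte : t = {p, q, v} := by
        rw [← Finset.insert_erase hp]
        congr 1
        rw [← Finset.insert_erase (Finset.mem_erase.2 ⟨hpq.symm, hq'⟩), hv]
      refine Finset.mem_image.2 ⟨v, ?_, hte.symm⟩
      rw [Set.Finite.mem_toFinset]
      refine ⟨Finset.mem_coe.2 (h4 hvp.2), ?_⟩
      have h8 : Collinear ℝ {p, q, v} := by
        rw [hte, Finset.coe_insert, Finset.coe_insert, Finset.coe_singleton] at h6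
        exact h6
      exact h8.mem_affineSpan_of_mem_of_ne (p₁ := p) (p₂ := q) (p₃ := v) (by simp) (by simp)
        (by simp) hpq
    exact (Finset.card_le_card hsub).trans Finset.card_image_le
  have hsubset : {q : Fin 6 → ℝ × ℝ | QuadP P q} ⊆ {q | Quad T q} := by
    rintro q ⟨h3, h4, h5, h6, h7, h8, h9⟩
    have hmem : ∀ i j l : Fin 6, i ≠ j → i ≠ l → j ≠ l → Collinear ℝ {q i, q j, q l} →
        ({q i, q j, q l} : Finset (ℝ × ℝ)) ∈ T := by
      intro i j l hij hil hjl hcol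
      refine Finset.mem_filter.2 ⟨Finset.mem_powersetCard.2 ⟨?_, ?_⟩, ?_⟩
      · intro x hx
        simp only [Finset.mem_insert, Finset.mem_singleton] at hx
        rcases hx with rfl | rfl | rfl
        · exact h3 i
        · exact h3 j
        · exact h3 l
      · exact Finset.card_eq_three.2 ⟨q i, q j, q l, fun h => hij (h4 h), fun h => hil (h4 h),
          fun h => hjl (h4 h), rfl⟩
      · rw [Finset.coe_insert, Finset.coe_insert, Finset.coe_singleton]
        exact hcol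
    exact ⟨h5, hmem 0 1 3 (by decide) (by decide) (by decide) h6,
      hmem 1 2 4 (by decide) (by decide) (by decide) h7,
      hmem 2 0 5 (by decide) (by decide) (by decide) h8,
      hmem 3 4 5 (by decide) (by decide) (by decide) h9⟩
  have hfinT : {q : Fin 6 → ℝ × ℝ | Quad T q}.Finite := by
    apply (Fintype.piFinset fun _ : Fin 6 => P).finite_toSet.subset
    intro q hq
    rw [Finset.mem_coe, Fintype.mem_piFinset]
    intro i
    have m1 := (hTd _ hq.2.1).1
    have m2 := (hTd _ hq.2.2.1).1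
    have m3 := (hTd _ hq.2.2.2.1).1
    fin_cases i
    · exact m1 (by simp)
    · exact m1 (by simp)
    · exact m2 (by simp)
    · exact m1 (by simp)
    · exact m2 (by simp)
    · exact m3 (by simp)
  have hq' : c * (P.card : ℝ) ^ 3 ≤ ({q : Fin 6 → ℝ × ℝ | Quad T q}.ncard : ℝ) := by
    refine hq.trans ?_
    exact_mod_cast Set.ncard_le_ncard hsubset hfinT
  obtain ⟨L, hL, hbound⟩ := mainQ3 hFin M c hc hc1 P T hP hTd hk hq'
  have hM2 : (2 : ℝ) ≤ M := by exact_mod_cast h2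
  have hM0 : (0 : ℝ) < M := by linarith
  have hLM : (((P : Set (ℝ × ℝ)) ∩ (L : Set (ℝ × ℝ))).ncard : ℝ) ≤ M := by
    exact_mod_cast hmax L hL
  have hn1 : (1 : ℝ) ≤ P.card := by
    have : 1 ≤ P.card := by omega
    exact_mod_cast this
  have hn0 : (0 : ℝ) < P.card := by linarith
  set u : ℝ := 2 * M / c with hu
  have hu2 : 2 ≤ u := by
    rw [hu, le_div_iff₀ hc]
    nlinarith
  have hu0 : 0 < u := by linarith
  have hMu : (M : ℝ) ≤ u := by
    rw [hu, le_div_iff₀ hc]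
    nlinarith
  set b : ℝ := Real.logb 2 u with hb
  have hb1 : 1 ≤ b := by
    rw [hb, Real.le_logb_iff_rpow_le (by norm_num) hu0, Real.rpow_one]
    exact hu2
  have hb0 : 0 < b := by linarith
  have hlogu : Real.log u = b * Real.log 2 := by
    rw [hb, Real.logb, div_mul_cancel₀]
    exact (Real.log_pos (by norm_num)).ne'
  have hl2 : Real.log 2 ≤ 1 := by
    have := Real.log_two_lt_d9
    linarith
  have hl2' : (1 : ℝ) / 2 ≤ Real.log 2 := by
    have := Real.log_two_gt_d9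
    linarith
  have hle : (P.card : ℝ) ^ (1 / (2 ^ 94 * b ^ 4)) ≤ u ^ 1000001 := by
    calc (P.card : ℝ) ^ (1 / (2 ^ 94 * b ^ 4))
        ≤ u ^ 1000000 * (((P : Set (ℝ × ℝ)) ∩ (L : Set (ℝ × ℝ))).ncard : ℝ) := hbound
      _ ≤ u ^ 1000000 * u := mul_le_mul_of_nonneg_left (hLM.trans hMu) (by positivity)
      _ = u ^ 1000001 := (pow_succ _ _).symm
  have hlog : Real.log P.card ≤ 2 ^ 114 * b ^ 5 := by
    have h3 := Real.log_le_log (by positivity) hle
    rw [Real.log_rpow hn0, Real.log_pow, hlogu, div_mul_eq_mul_div, one_mul,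
      div_le_iff₀ (by positivity)] at h3
    refine h3.trans ?_
    have h4 : ((1000001 : ℕ) : ℝ) * (b * Real.log 2) ≤ 2 ^ 20 * b := by
      push_cast
      nlinarith
    calc ((1000001 : ℕ) : ℝ) * (b * Real.log 2) * (2 ^ 94 * b ^ 4)
        ≤ 2 ^ 20 * b * (2 ^ 94 * b ^ 4) := mul_le_mul_of_nonneg_right h4 (by positivity)
      _ = 2 ^ 114 * b ^ 5 := by ring
  have hlog0 : 0 ≤ Real.log P.card := Real.log_nonneg hn1
  have hroot : (Real.log P.card) ^ ((1 : ℝ) / 5) ≤ 2 ^ 23 * b := by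
    have h3 : Real.log P.card ≤ (2 ^ 23 * b) ^ 5 := by
      refine hlog.trans ?_
      rw [mul_pow]
      exact mul_le_mul_of_nonneg_right (by norm_num) (by positivity)
    have h4 : (Real.log P.card) ^ ((1 : ℝ) / 5) ≤ ((2 ^ 23 * b) ^ 5) ^ ((1 : ℝ) / 5) :=
      Real.rpow_le_rpow hlog0 h3 (by positivity)
    refine h4.trans (le_of_eq ?_)
    have h5 : (0 : ℝ) ≤ 2 ^ 23 * b := by positivity
    have h6 := Real.pow_rpow_inv_natCast (n := 5) h5 (by norm_num)
    rw [one_div]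
    exact_mod_cast h6
  have hexp : Real.exp ((Real.log P.card) ^ ((1 : ℝ) / 5) / 2 ^ 24) ≤ u := by
    rw [← Real.exp_log hu0]
    apply Real.exp_le_exp.2
    rw [hlogu]
    calc (Real.log P.card) ^ ((1 : ℝ) / 5) / 2 ^ 24 ≤ (2 ^ 23 * b) / 2 ^ 24 := by gcongr
      _ = b * (1 / 2) := by ring
      _ ≤ b * Real.log 2 := mul_le_mul_of_nonneg_left hl2' hb0.le
  calc c / 2 * Real.exp ((Real.log P.card) ^ ((1 : ℝ) / 5) / 2 ^ 24) ≤ c / 2 * u :=
        mul_le_mul_of_nonneg_left hexp (by positivity)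
    _ = M := by rw [hu]; field_simp

end Pool.Agent.QQ95
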