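import Pool.Agent.Lib.MP_95b053_co.SAN.Spec

/-!
# MP_95b053_co, project SAN, module San: assembly of the lemma of Sanders
-/

set_option autoImplicit false

namespace Pool.Agent.SAN

open Finset
open scoped Pointwise

private theorem San_add {N : ℕ} [NeZero N] (u v : ZMod N) :
    ‖(ZMod.stdAddChar (u + v) : ℂ) - 1‖ ≤ ‖(ZMod.stdAddChar u : ℂ) - 1‖ + ‖(ZMod.stdAddChar v : ℂ) - 1‖ := by
  have h1 : (ZMod.stdAddChar (u + v) : ℂ) - 1 =
      ((ZMod.stdAddChar u : ℂ) - 1) * ZMod.stdAddChar v + ((ZMod.stdAddChar v : ℂ) - 1) := by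
    rw [AddChar.map_add_eq_mul]
    ring
  have h2 : ‖(ZMod.stdAddChar v : ℂ)‖ = 1 := AddChar.norm_apply _ _
  rw [h1]
  refine (norm_add_le _ _).trans ?_
  rw [norm_mul, h2, mul_one]

private theorem San_sum {N : ℕ} [NeZero N] (s : Finset (ZMod N)) (g : ZMod N → ZMod N) :
    ‖(ZMod.stdAddChar (∑ y ∈ s, g y) : ℂ) - 1‖ ≤ ∑ y ∈ s, ‖(ZMod.stdAddChar (g y) : ℂ) - 1‖ := by
  classical
  induction s using Finset.induction_on with
  | empty => simp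
  | insert a s ha ih =>
    rw [Finset.sum_insert ha, Finset.sum_insert ha]
    exact (San_add _ _).trans (by linarith)

private theorem San_e {N : ℕ} [NeZero N] (e : ℤ) (he : |e| ≤ 1) (y x : ZMod N) :
    ‖(ZMod.stdAddChar ((e • y) * x) : ℂ) - 1‖ ≤ ‖(ZMod.stdAddChar (y * x) : ℂ) - 1‖ := by
  obtain ⟨h1, h2⟩ := abs_le.1 he
  have h3 : e = -1 ∨ e = 0 ∨ e = 1 := by omega
  rcases h3 with rfl | rfl | rfl
  · have h4 : ((-1 : ℤ) • y) * x = -(y * x) := by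
      rw [neg_smul, one_smul, neg_mul]
    rw [h4, AddChar.map_neg_eq_conj]
    have h5 : (starRingEnd ℂ) (ZMod.stdAddChar (y * x) : ℂ) - 1 =
        (starRingEnd ℂ) ((ZMod.stdAddChar (y * x) : ℂ) - 1) := by
      rw [map_sub, map_one]
    rw [h5, RCLike.norm_conj]
  · rw [zero_smul, zero_mul, AddChar.map_zero_eq_one, sub_self, norm_zero]
    exact norm_nonneg _
  · rw [one_smul]

private theorem San_num1 (j : ℕ) (hj : 1 ≤ j) : 6 * (2 ^ 21 * j ^ 4 + 1) ≤ 2 ^ 24 * j ^ 4 := by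
  have h1 : 1 ≤ j ^ 4 := Nat.one_le_pow _ _ hj
  have h2 : 2 ^ 24 * j ^ 4 = 8 * (2 ^ 21 * j ^ 4) := by ring
  omega

private theorem San_num2 (j n : ℕ) (hn : n ≤ 2 ^ 24 * j ^ 4) :
    (n : ℝ) * (1 / 2 ^ (5 * j + 26)) ≤ 1 / (4 * 2 ^ j) := by
  have h1 : (j : ℝ) ≤ 2 ^ j := by
    exact_mod_cast (Nat.lt_two_pow_self (n := j)).le
  have h2 : (j : ℝ) ^ 4 ≤ (2 ^ j) ^ 4 := pow_le_pow_left₀ (Nat.cast_nonneg _) h1 4
  have h3 : (n : ℝ) ≤ 2 ^ 24 * (j : ℝ) ^ 4 := by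
    exact_mod_cast hn
  have h4 : (0 : ℝ) < 2 ^ j := by positivity
  rw [mul_one_div, div_le_div_iff₀ (by positivity) (by positivity)]
  have h5 : (2 : ℝ) ^ (5 * j + 26) = 4 * 2 ^ 24 * ((2 ^ j) ^ 4 * 2 ^ j) := by
    rw [pow_add, pow_mul']
    ring
  rw [h5]
  calc (n : ℝ) * (4 * 2 ^ j) ≤ (2 ^ 24 * (j : ℝ) ^ 4) * (4 * 2 ^ j) :=
        mul_le_mul_of_nonneg_right h3 (by positivity)
    _ ≤ (2 ^ 24 * (2 ^ j) ^ 4) * (4 * 2 ^ j) := by
        refine mul_le_mul_of_nonneg_right ?_ (by positivity)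
        exact mul_le_mul_of_nonneg_left h2 (by positivity)
    _ = _ := by ring

private theorem San_num3 (j : ℕ) (hj : 1 ≤ j) :
    (1 / (4 * 2 ^ j) + 2 / 4 ^ (3 * j)) * (2 : ℝ) ^ j ≤ 5 / 16 := by
  have h4 : (0 : ℝ) < 2 ^ j := by positivity
  have h5 : (2 : ℝ) ≤ 2 ^ j := by
    calc (2 : ℝ) = 2 ^ 1 := (pow_one _).symm
      _ ≤ 2 ^ j := pow_le_pow_right₀ (by norm_num) hj
  have h6 : (4 : ℝ) ^ (3 * j) = (2 ^ j) ^ 6 := by
    rw [← pow_mul, show (4 : ℝ) = 2 ^ 2 by norm_num, ← pow_mul]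
    ring_nf
  rw [h6]
  have h7 : (1 / (4 * 2 ^ j) + 2 / (2 ^ j) ^ 6) * (2 : ℝ) ^ j = 1 / 4 + 2 / (2 ^ j) ^ 5 := by
    field_simp
  rw [h7]
  have h8 : (32 : ℝ) ≤ (2 ^ j) ^ 5 := by
    calc (32 : ℝ) = 2 ^ 5 := by norm_num
      _ ≤ _ := pow_le_pow_left₀ (by norm_num) h5 5
  have h9 : 2 / ((2 : ℝ) ^ j) ^ 5 ≤ 2 / 32 := div_le_div_of_nonneg_left (by norm_num) (by norm_num) h8
  linarith

private theorem San_HH0 {N : ℕ} (E : Finset (ZMod N)) (hE : E.Nonempty) : HH E 0 = 1 := by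
  unfold HH
  have h1 : ∑ b ∈ E, ∑ c ∈ E, (if (0 : ZMod N) + b - c ∈ E - E then (1 : ℝ) else 0) =
      ∑ b ∈ E, ∑ c ∈ E, (1 : ℝ) := by
    refine Finset.sum_congr rfl fun b hb => Finset.sum_congr rfl fun c hc => ?_
    rw [zero_add, if_pos (Finset.sub_mem_sub hb hc)]
  rw [h1]
  have h2 : (E.card : ℝ) ≠ 0 := by
    exact_mod_cast (Finset.card_pos.2 hE).ne'
  simp only [Finset.sum_const, nsmul_eq_mul, mul_one]
  field_simp

theorem rSan (h1 : S_Sup) (h2 : S_Cha) (h3 : S_Tel) (h4 : S_Four) : S_San := by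
  intro N _ E j hE hj hN
  obtain ⟨T, hT, hNT, hsup⟩ := h1 N E j hE hj hN
  obtain ⟨L, hL, hspec⟩ := h2 N T (2 ^ 21 * j ^ 4 + 1) hT hNT
  have hL' : L.card ≤ 2 ^ 24 * j ^ 4 := hL.trans (San_num1 j hj)
  refine ⟨L, hL', ?_⟩
  intro x hx
  have hj0 : (0 : ℝ) < j := by exact_mod_cast hj
  have hE0 : (0 : ℝ) < E.card := by
    exact_mod_cast Finset.card_pos.2 hE
  have hclaim : ∀ r : ZMod N, (T.card : ℝ) / 2 ≤ ‖es T r‖ →
      ‖(ZMod.stdAddChar (r * x) : ℂ) - 1‖ ≤ 1 / (4 * 2 ^ j) := by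
    intro r hr
    obtain ⟨e, he, hre⟩ := hspec r hr
    have e1 : r * x = ∑ y ∈ L, (e y • y) * x := by
      rw [hre, Finset.sum_mul]
    rw [e1]
    refine (San_sum L fun y => (e y • y) * x).trans ?_
    refine le_trans (Finset.sum_le_sum (g := fun _ => 1 / 2 ^ (5 * j + 26)) fun y hy =>
      (San_e (e y) (he y) y x).trans (hx y hy)) ?_
    rw [Finset.sum_const, nsmul_eq_mul]
    exact San_num2 j L.card hL'
  have f1 := h4 N E T (3 * j) (1 / (4 * 2 ^ j)) x hE hT (by positivity) hclaim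
  have f2 : (1 / (4 * 2 ^ j) + 2 / 4 ^ (3 * j)) * ((N : ℝ) / E.card) ≤ 5 / 16 := by
    refine le_trans ?_ (San_num3 j hj)
    refine mul_le_mul_of_nonneg_left ?_ (by positivity)
    rw [div_le_iff₀ hE0]
    exact hN
  have f3 : ((3 * j : ℕ) : ℝ) * (1 / (24 * j)) = 1 / 8 := by
    push_cast
    field_simp
    norm_num
  have f4 := h3 N E T (3 * j) (1 / (24 * j)) hT hsup x
  have f5 := h3 N E T (3 * j) (1 / (24 * j)) hT hsup 0
  rw [f3] at f4 f5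
  rw [San_HH0 E hE] at f5
  have g1 := (abs_le.1 (f1.trans f2)).1
  have g2 := (abs_le.1 f4).2
  have g3 := (abs_le.1 f5).1
  have hpos : 0 < HH E x := by linarith
  by_contra hne
  push Not at hne
  have hz : HH E x = 0 := by
    unfold HH
    have h5 : ∑ b ∈ E, ∑ c ∈ E, (if x + b - c ∈ E - E then (1 : ℝ) else 0) = 0 := by
      refine Finset.sum_eq_zero fun b hb => Finset.sum_eq_zero fun c hc => ?_
      rw [if_neg]
      intro hmem
      obtain ⟨a, ha, d, hd, hab⟩ := Finset.mem_sub.1 hmem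
      refine hne a ha c hc b hb d hd ?_
      have h6 : x = (x + b - c) - b + c := by ring
      rw [h6, ← hab]
      ring
    rw [h5, zero_div]
  rw [hz] at hpos
  exact lt_irrefl _ hpos

end Pool.Agent.SAN
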