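import Pool.Agent.Lib.MP_95b053_co.SAN.Spec

/-!
# MP_95b053_co, project SAN, module Sup: almost periods in the maximum norm
-/

set_option autoImplicit false

namespace Pool.Agent.SAN

open Finset
open scoped Pointwise

/-- the indicator function of `E - E` -/
private noncomputable def Sup_f {N : ℕ} (E : Finset (ZMod N)) (x : ZMod N) : ℝ :=
  if x ∈ E - E then 1 else 0

private theorem Sup_abs {N : ℕ} (E : Finset (ZMod N)) (x : ZMod N) : |Sup_f E x| ≤ 1 := by
  unfold Sup_f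
  split_ifs
  · rw [abs_one]
  · rw [abs_zero]
    exact zero_le_one

private theorem Sup_HH {N : ℕ} (E : Finset (ZMod N)) (x : ZMod N) :
    HH E x = (∑ c ∈ E, av E (Sup_f E) (x - c)) / E.card := by
  have h : ∀ c ∈ E, av E (Sup_f E) (x - c) =
      (∑ b ∈ E, if x + b - c ∈ E - E then (1 : ℝ) else 0) / E.card := by
    intro c _
    unfold av
    congr 1
    refine sum_congr rfl fun b _ => ?_
    unfold Sup_f
    rw [show x - c + b = x + b - c by ring]
  rw [sum_congr rfl h, ← sum_div, div_div, ← pow_two]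
  unfold HH
  rw [sum_comm]

private theorem Sup_sum {N : ℕ} [NeZero N] (E : Finset (ZMod N)) (x : ZMod N) (F : ZMod N → ℝ)
    (hF : ∀ y, 0 ≤ F y) : ∑ c ∈ E, F (x - c) ≤ ∑ y : ZMod N, F y := by
  classical
  rw [← sum_image (s := E) (g := fun c => x - c) (f := F) (fun a _ b _ hab => by
    have : x - a = x - b := hab
    exact sub_right_injective this)]
  exact sum_le_sum_of_subset_of_nonneg (subset_univ _) fun y _ _ => hF y

/-- The power mean inequality. -/
private theorem Sup_mean {N : ℕ} (E : Finset (ZMod N)) (hE : E.Nonempty) (F : ZMod N → ℝ)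
    (hF : ∀ y, 0 ≤ F y) (n : ℕ) :
    ((∑ c ∈ E, F c) / E.card) ^ n ≤ (∑ c ∈ E, F c ^ n) / E.card := by
  have hc : (0 : ℝ) < E.card := by exact_mod_cast hE.card_pos
  have h := Real.pow_arith_mean_le_arith_mean_pow E (fun _ => 1 / (E.card : ℝ)) F
    (fun _ _ => by positivity) (by rw [sum_const, nsmul_eq_mul]; field_simp) (fun y _ => hF y) n
  rw [← mul_sum, ← mul_sum] at h
  calc ((∑ c ∈ E, F c) / E.card) ^ n = (1 / (E.card : ℝ) * ∑ c ∈ E, F c) ^ n := by
        rw [one_div, div_eq_inv_mul]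
    _ ≤ _ := h
    _ = (∑ c ∈ E, F c ^ n) / E.card := by rw [one_div, div_eq_inv_mul]

/-- The numerical inequality. -/
private theorem Sup_num (j l : ℕ) (hj : 1 ≤ j) (hl : l = 2 ^ 21 * j ^ 3) :
    2 * (256 * (j : ℝ) / l) ^ j * 2 ^ j ≤ (1 / (24 * (j : ℝ))) ^ (2 * j) := by
  have hj0 : (0 : ℝ) < j := by exact_mod_cast hj
  have hlR : (l : ℝ) = 2097152 * (j : ℝ) ^ 3 := by
    rw [hl]
    push_cast
    norm_num
  have h1 : 256 * (j : ℝ) / l = 1 / (8192 * (j : ℝ) ^ 2) := by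
    rw [hlR]
    field_simp
    norm_num
  have h2 : (1 / (24 * (j : ℝ))) ^ (2 * j) = (1 / (576 * (j : ℝ) ^ 2)) ^ j := by
    rw [pow_mul]
    congr 1
    rw [div_pow, one_pow, mul_pow]
    norm_num
  rw [h1, h2, mul_assoc, ← mul_pow]
  have h3 : 1 / (8192 * (j : ℝ) ^ 2) * 2 = 1 / (576 * (j : ℝ) ^ 2) * (9 / 64) := by
    field_simp
    norm_num
  rw [h3, mul_pow]
  have h4 : (9 / 64 : ℝ) ^ j ≤ 1 / 2 := by
    calc (9 / 64 : ℝ) ^ j ≤ (9 / 64 : ℝ) ^ 1 :=
          pow_le_pow_of_le_one (by norm_num) (by norm_num) hj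
      _ ≤ 1 / 2 := by norm_num
  have h5 : (0 : ℝ) < (1 / (576 * (j : ℝ) ^ 2)) ^ j := by positivity
  nlinarith

theorem rSup (h1 : S_CrS) : S_Sup := by
  intro N _ E j hE hj hNE
  have hc : (0 : ℝ) < E.card := by exact_mod_cast hE.card_pos
  have hN : (0 : ℝ) < N := by exact_mod_cast NeZero.pos N
  have hj0 : (0 : ℝ) < j := by exact_mod_cast hj
  obtain ⟨l, hl⟩ : ∃ l : ℕ, l = 2 ^ 21 * j ^ 3 := ⟨_, rfl⟩
  have hl1 : 1 ≤ l := by
    rw [hl]
    exact Nat.one_le_iff_ne_zero.2 (Nat.mul_ne_zero (by norm_num) (pow_ne_zero _ (by omega)))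
  obtain ⟨T, hT1, hT2⟩ := h1 N E (Sup_f E) j l hE hj hl1 (Sup_abs E)
  -- the size of `T`
  have hT3 : (N : ℝ) ≤ 2 ^ (2 ^ 21 * j ^ 4 + 1) * T.card := by
    have h3 : (N : ℝ) ^ l ≤ 2 ^ (j * l) * (E.card : ℝ) ^ l := by
      calc (N : ℝ) ^ l ≤ (2 ^ j * E.card : ℝ) ^ l := pow_le_pow_left₀ hN.le hNE l
        _ = 2 ^ (j * l) * (E.card : ℝ) ^ l := by rw [mul_pow, ← pow_mul]
    have h4 : (0 : ℝ) < (E.card : ℝ) ^ l := by positivity
    have h5 : (E.card : ℝ) ^ l * N ≤ (E.card : ℝ) ^ l * (2 ^ (j * l + 1) * T.card) := by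
      calc (E.card : ℝ) ^ l * N ≤ 2 * T.card * (N : ℝ) ^ l := hT1
        _ ≤ 2 * T.card * (2 ^ (j * l) * (E.card : ℝ) ^ l) :=
          mul_le_mul_of_nonneg_left h3 (by positivity)
        _ = (E.card : ℝ) ^ l * (2 ^ (j * l + 1) * T.card) := by
          rw [pow_succ]
          ring
    have h6 := le_of_mul_le_mul_left h5 h4
    have h7 : j * l = 2 ^ 21 * j ^ 4 := by
      rw [hl]
      ring
    rwa [h7] at h6
  have hTn : T.Nonempty := by
    by_contra h
    rw [not_nonempty_iff_eq_empty] at h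
    rw [h, card_empty, Nat.cast_zero, mul_zero] at hT3
    linarith
  refine ⟨T, hTn, hT3, fun x t ht t' ht' => ?_⟩
  -- the difference is at most a mean of `D`
  set D : ZMod N → ℝ := fun y => |av E (Sup_f E) (y + t) - av E (Sup_f E) (y + t')| with hD
  have hD0 : ∀ y, 0 ≤ D y := fun y => abs_nonneg _
  have h8 : |HH E (x + t) - HH E (x + t')| ≤ (∑ c ∈ E, D (x - c)) / E.card := by
    rw [Sup_HH, Sup_HH, ← sub_div, ← sum_sub_distrib, abs_div, abs_of_pos hc]
    refine div_le_div_of_nonneg_right ((abs_sum_le_sum_abs _ _).trans (le_of_eq ?_)) hc.le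
    refine sum_congr rfl fun c _ => ?_
    rw [hD]
    show |av E (Sup_f E) (x + t - c) - av E (Sup_f E) (x + t' - c)| =
      |av E (Sup_f E) (x - c + t) - av E (Sup_f E) (x - c + t')|
    rw [show x + t - c = x - c + t by ring, show x + t' - c = x - c + t' by ring]
  have h9 : ((∑ c ∈ E, D (x - c)) / E.card) ^ (2 * j) ≤ (1 / (24 * (j : ℝ))) ^ (2 * j) := by
    calc ((∑ c ∈ E, D (x - c)) / E.card) ^ (2 * j)
        ≤ (∑ c ∈ E, D (x - c) ^ (2 * j)) / E.card :=
          Sup_mean E hE (fun c => D (x - c)) (fun y => hD0 _) (2 * j)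
      _ ≤ (∑ y : ZMod N, D y ^ (2 * j)) / E.card :=
          div_le_div_of_nonneg_right
            (Sup_sum E x (fun y => D y ^ (2 * j)) (fun y => pow_nonneg (hD0 y) _)) hc.le
      _ = (∑ y : ZMod N, (av E (Sup_f E) (y + t) - av E (Sup_f E) (y + t')) ^ (2 * j)) /
          E.card := by
          congr 1
          refine sum_congr rfl fun y _ => ?_
          rw [hD]
          show |av E (Sup_f E) (y + t) - av E (Sup_f E) (y + t')| ^ (2 * j) = _
          rw [pow_mul, pow_mul, sq_abs]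
      _ ≤ (2 * (256 * (j : ℝ) / l) ^ j * N) / E.card :=
          div_le_div_of_nonneg_right (hT2 t ht t' ht') hc.le
      _ ≤ (2 * (256 * (j : ℝ) / l) ^ j * (2 ^ j * E.card)) / E.card :=
          div_le_div_of_nonneg_right (mul_le_mul_of_nonneg_left hNE (by positivity)) hc.le
      _ = 2 * (256 * (j : ℝ) / l) ^ j * 2 ^ j := by
          rw [← mul_assoc, mul_div_assoc, div_self hc.ne', mul_one]
      _ ≤ (1 / (24 * (j : ℝ))) ^ (2 * j) := Sup_num j l hj hl
  refine h8.trans ?_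
  exact le_of_pow_le_pow_left₀ (by omega) (by positivity) h9

end Pool.Agent.SAN
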