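import Pool.Agent.Lib.MP_95b053_co.SAN.Spec

/-!
MP_95b053_co, project SAN, module Tel (helper85): telescoping.
-/

set_option autoImplicit false

namespace Pool.Agent.SAN

open Finset

private lemma Tel_one {N : ℕ} [NeZero N] (E T : Finset (ZMod N)) (δ : ℝ)
    (h : ∀ x : ZMod N, ∀ t ∈ T, ∀ t' ∈ T, |HH E (x + t) - HH E (x + t')| ≤ δ) (x : ZMod N) :
    ∀ (k : ℕ) (a b : Fin k → ZMod N), (∀ i, a i ∈ T) → (∀ i, b i ∈ T) →
      |HH E (x + ∑ i, a i - ∑ i, b i) - HH E x| ≤ k * δ := by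
  intro k
  induction k with
  | zero =>
    intro a b _ _
    simp
  | succ k ih =>
    intro a b ha hb
    have h1 := ih (fun i => a i.succ) (fun i => b i.succ) (fun i => ha _) (fun i => hb _)
    set y : ZMod N := x + ∑ i : Fin k, a i.succ - ∑ i : Fin k, b i.succ with hy
    have h2 := h (y - b 0) (a 0) (ha 0) (b 0) (hb 0)
    rw [sub_add_cancel] at h2
    have h3 : x + ∑ i, a i - ∑ i, b i = y - b 0 + a 0 := by
      rw [Fin.sum_univ_succ, Fin.sum_univ_succ, hy]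
      ring
    rw [h3]
    calc |HH E (y - b 0 + a 0) - HH E x|
        = |(HH E (y - b 0 + a 0) - HH E y) + (HH E y - HH E x)| := by
          congr 1
          ring
      _ ≤ |HH E (y - b 0 + a 0) - HH E y| + |HH E y - HH E x| := abs_add_le _ _
      _ ≤ δ + k * δ := add_le_add h2 h1
      _ = ((k + 1 : ℕ) : ℝ) * δ := by
          push_cast
          ring

theorem rTel : S_Tel := by
  intro N _ E T k δ hT h x
  have hc : (0 : ℝ) < (T.card : ℝ) := by exact_mod_cast hT.card_pos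
  have hc2 : (0 : ℝ) < (T.card : ℝ) ^ (2 * k) := pow_pos hc _
  set P : Finset (Fin k → ZMod N) := Fintype.piFinset (fun _ : Fin k => T) with hP
  have hcard : (P.card : ℝ) = (T.card : ℝ) ^ k := by
    rw [hP, Fintype.card_piFinset_const]
    push_cast
    rfl
  have hmem : ∀ a ∈ P, ∀ i, a i ∈ T := fun a ha i => (Fintype.mem_piFinset.1 ha) i
  have h1 : PP E T k x - HH E x =
      (∑ a ∈ P, ∑ b ∈ P, (HH E (x + ∑ i, a i - ∑ i, b i) - HH E x)) / (T.card : ℝ) ^ (2 * k) := by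
    have h2 : ∑ a ∈ P, ∑ b ∈ P, (HH E (x + ∑ i, a i - ∑ i, b i) - HH E x) =
        (∑ a ∈ P, ∑ b ∈ P, HH E (x + ∑ i, a i - ∑ i, b i)) - (T.card : ℝ) ^ (2 * k) * HH E x := by
      simp only [sum_sub_distrib, sum_const, nsmul_eq_mul]
      rw [hcard]
      ring
    rw [h2, sub_div, mul_div_cancel_left₀ _ hc2.ne']
    rfl
  rw [h1, abs_div, abs_of_pos hc2, div_le_iff₀ hc2]
  calc |∑ a ∈ P, ∑ b ∈ P, (HH E (x + ∑ i, a i - ∑ i, b i) - HH E x)|
      ≤ ∑ a ∈ P, |∑ b ∈ P, (HH E (x + ∑ i, a i - ∑ i, b i) - HH E x)| := abs_sum_le_sum_abs _ _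
    _ ≤ ∑ a ∈ P, ∑ b ∈ P, |HH E (x + ∑ i, a i - ∑ i, b i) - HH E x| :=
        sum_le_sum fun a _ => abs_sum_le_sum_abs _ _
    _ ≤ ∑ a ∈ P, ∑ b ∈ P, (k : ℝ) * δ :=
        sum_le_sum fun a ha => sum_le_sum fun b hb => Tel_one E T δ h x k a b (hmem a ha) (hmem b hb)
    _ = (k : ℝ) * δ * (T.card : ℝ) ^ (2 * k) := by
        simp only [sum_const, nsmul_eq_mul]
        rw [hcard]
        ring

end Pool.Agent.SAN
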