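import Pool.Agent.Lib.MP_95b053_co.SAN.Spec

/-!
# MP_95b053_co, project SAN, module Uni: numbers for the mass systems
-/

set_option autoImplicit false

namespace Pool.Agent.SAN

open Finset
open scoped Pointwise

private lemma Uni_V (hPair : Pool.Agent.MAS.S_MPair) (hSmall : Pool.Agent.MAS.S_Small2) (K : ℕ) (P : Finset (ℝ × ℝ))
    (a b c : Fin K → ℝ × ℝ → ℝ) (α : ℝ) (hP : P.Nonempty) (hα : 0 < α)
    (hl : α * (P.card : ℝ) ^ 2 ≤ ((Pool.Agent.MAS.massLines K P a b c).ncard : ℝ)) :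
    0 < α / K ∧ α / K ≤ 1 ∧ 1 ≤ K ∧ ∃ i : Fin K, ∃ V ⊆ Pool.Agent.MAS.wup P (a i), V.Nonempty ∧
      (α / K) ^ 2 / 4 * (P.card : ℝ) ≤ V.card ∧
      ((V - V).card : ℝ) ≤ 2 ^ 23 / (α / K) ^ 20 * V.card := by
  obtain ⟨i, hi⟩ := hPair K P a b c α hP hα hl
  have hK : 1 ≤ K := i.pos
  have hK0 : (0 : ℝ) < K := by exact_mod_cast hK
  have hγ : 0 < α / K := div_pos hα hK0
  have hn0 : (0 : ℝ) < P.card := by exact_mod_cast hP.card_pos
  have hw : ∀ w : ℝ × ℝ → ℝ, ((Pool.Agent.MAS.wup P w).card : ℝ) ≤ P.card := by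
    intro w
    have h1 : (Pool.Agent.MAS.wup P w).card ≤ P.card := by
      unfold Pool.Agent.MAS.wup
      exact Finset.card_image_le.trans (Finset.card_filter_le _ _)
    exact_mod_cast h1
  obtain ⟨V, hV, hV1, hV2⟩ := hSmall _ _ _ (P.card : ℝ) (α / K) hn0 (hw (a i)) (hw (b i)) (hw (c i)) hγ hi
  have hVpos : 0 < (V.card : ℝ) := by
    have h1 : 0 < (α / K) ^ 2 / 4 * (P.card : ℝ) := by positivity
    linarith
  refine ⟨hγ, ?_, hK, i, V, hV, Finset.card_pos.1 (by exact_mod_cast hVpos), hV1, ?_⟩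
  · have h1 : (((Pool.Agent.MAS.wup P (a i) ×ˢ Pool.Agent.MAS.wup P (b i)).filter
        fun z => z.1 + z.2 ∈ Pool.Agent.MAS.wup P (c i)).card : ℝ) ≤ (P.card : ℝ) ^ 2 := by
      have h2 := Finset.card_filter_le (Pool.Agent.MAS.wup P (a i) ×ˢ Pool.Agent.MAS.wup P (b i))
        fun z => z.1 + z.2 ∈ Pool.Agent.MAS.wup P (c i)
      rw [Finset.card_product] at h2
      have h3 : ((((Pool.Agent.MAS.wup P (a i) ×ˢ Pool.Agent.MAS.wup P (b i)).filter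
          fun z => z.1 + z.2 ∈ Pool.Agent.MAS.wup P (c i)).card : ℕ) : ℝ) ≤
          (((Pool.Agent.MAS.wup P (a i)).card * (Pool.Agent.MAS.wup P (b i)).card : ℕ) : ℝ) := by exact_mod_cast h2
      rw [Nat.cast_mul] at h3
      rw [sq]
      exact h3.trans (mul_le_mul (hw _) (hw _) (Nat.cast_nonneg _) hn0.le)
    have h4 : α / K * (P.card : ℝ) ^ 2 ≤ 1 * (P.card : ℝ) ^ 2 := by
      rw [one_mul]
      exact hi.trans h1
    exact le_of_mul_le_mul_right h4 (by positivity)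
  · rw [div_mul_eq_mul_div, le_div_iff₀ (by positivity)]
    exact hV2

/-- the numbers -/
private lemma Uni_num {u l n t v : ℝ} {h : ℕ} (hu : 2 ≤ u) (hl : l = Real.logb 2 u) (hh : (h : ℝ) ≤ 24 * l)
    (ht : 1 ≤ t) (hn : 0 ≤ n) (hnv : n ≤ u ^ 2 * v) (hv : v ≤ (2 ^ (124 * h) * t) ^ (2 ^ 41 * h ^ 4)) :
    n ^ (1 / (2 ^ 60 * l ^ 4)) ≤ u ^ 3000 * t := by
  have hu0 : 0 < u := by linarith
  have hu1 : 1 ≤ u := by linarith
  have hl1 : 1 ≤ l := by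
    rw [hl, Real.le_logb_iff_rpow_le (by norm_num) hu0, Real.rpow_one]
    exact hu
  have hul : (2 : ℝ) ^ l = u := by
    rw [hl]
    exact Real.rpow_logb (by norm_num) (by norm_num) hu0
  obtain ⟨D', hD'⟩ : ∃ D' : ℝ, D' = 2 ^ 60 * l ^ 4 := ⟨_, rfl⟩
  have hl4 : 1 ≤ l ^ 4 := one_le_pow₀ hl1
  have hD1 : 1 ≤ D' := by
    rw [hD']
    nlinarith
  have hD0 : 0 < D' := by linarith
  have hDD : ((2 ^ 41 * h ^ 4 : ℕ) : ℝ) ≤ D' := by
    rw [Nat.cast_mul, Nat.cast_pow, Nat.cast_pow, Nat.cast_ofNat]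
    have h1 : (h : ℝ) ^ 4 ≤ (24 * l) ^ 4 := pow_le_pow_left₀ (Nat.cast_nonneg _) hh 4
    rw [hD']
    calc (2 : ℝ) ^ 41 * (h : ℝ) ^ 4 ≤ 2 ^ 41 * (24 * l) ^ 4 := mul_le_mul_of_nonneg_left h1 (by norm_num)
      _ = (2 ^ 41 * 24 ^ 4) * l ^ 4 := by ring
      _ ≤ 2 ^ 60 * l ^ 4 := mul_le_mul_of_nonneg_right (by norm_num) (by linarith)
  have hp : (2 : ℝ) ^ (124 * h) ≤ u ^ 2976 := by
    have e1 : (2 : ℝ) ^ (124 * h) = (2 : ℝ) ^ (((124 * h : ℕ) : ℝ)) := (Real.rpow_natCast _ _).symm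
    have e2 : u ^ 2976 = (2 : ℝ) ^ (l * 2976) := by
      rw [Real.rpow_mul (by norm_num), hul]
      exact_mod_cast (Real.rpow_natCast u 2976).symm
    rw [e1, e2]
    refine Real.rpow_le_rpow_of_exponent_le (by norm_num) ?_
    push_cast
    linarith
  have hb1 : (1 : ℝ) ≤ u ^ 2976 * t := by
    have := one_le_pow₀ (n := 2976) hu1
    nlinarith
  have h1 : v ≤ (u ^ 2976 * t) ^ D' := by
    calc v ≤ (2 ^ (124 * h) * t) ^ (2 ^ 41 * h ^ 4) := hv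
      _ ≤ (u ^ 2976 * t) ^ (2 ^ 41 * h ^ 4) :=
        pow_le_pow_left₀ (by positivity) (mul_le_mul_of_nonneg_right hp (by linarith)) _
      _ = (u ^ 2976 * t) ^ ((2 ^ 41 * h ^ 4 : ℕ) : ℝ) := (Real.rpow_natCast _ _).symm
      _ ≤ (u ^ 2976 * t) ^ D' := Real.rpow_le_rpow_of_exponent_le hb1 hDD
  have hu2 : (1 : ℝ) ≤ u ^ 2 := one_le_pow₀ hu1
  have h2 : u ^ 2 ≤ (u ^ 2) ^ D' := by
    calc u ^ 2 = (u ^ 2) ^ (1 : ℝ) := (Real.rpow_one _).symm
      _ ≤ (u ^ 2) ^ D' := Real.rpow_le_rpow_of_exponent_le hu2 hD1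
  have h3 : n ≤ (u ^ 2978 * t) ^ D' := by
    calc n ≤ u ^ 2 * v := hnv
      _ ≤ (u ^ 2) ^ D' * (u ^ 2976 * t) ^ D' := by
        refine mul_le_mul h2 h1 ?_ (by positivity)
        by_contra hneg
        push Not at hneg
        have : u ^ 2 * v < 0 := mul_neg_of_pos_of_neg (by positivity) hneg
        linarith
      _ = (u ^ 2 * (u ^ 2976 * t)) ^ D' := (Real.mul_rpow (by positivity) (by linarith)).symm
      _ = (u ^ 2978 * t) ^ D' := by
        congr 1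
        ring
  have h4 : n ^ (1 / D') ≤ u ^ 2978 * t := by
    have h5 := Real.rpow_le_rpow hn h3 (by positivity : (0 : ℝ) ≤ 1 / D')
    rwa [← Real.rpow_mul (by positivity), mul_one_div_cancel hD0.ne', Real.rpow_one] at h5
  rw [← hD']
  refine h4.trans (mul_le_mul_of_nonneg_right ?_ (by linarith))
  exact pow_le_pow_right₀ hu1 (by norm_num)

theorem rUni (h1 : S_Fin2) (h2 : Pool.Agent.MAS.S_MPair) (h3 : Pool.Agent.MAS.S_MBack)
    (h4 : Pool.Agent.MAS.S_Small2) : S_Uni := by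
  classical
  intro K P a b c α hP hα hl
  obtain ⟨hγ0, hγ1, hK, i, V, hV, hVne, hVcard, hKV⟩ := Uni_V h2 h4 K P a b c α hP hα hl
  have hK0 : (0 : ℝ) < K := by exact_mod_cast hK
  obtain ⟨u, hu⟩ : ∃ u : ℝ, u = 2 * K / α := ⟨_, rfl⟩
  have hγu : α / K = 2 / u := by
    rw [hu]
    field_simp
  have hu0 : 0 < u := by
    rw [hu]
    positivity
  have hu2 : 2 ≤ u := by
    rw [hγu, div_le_one hu0] at hγ1
    exact hγ1
  obtain ⟨l, hlog⟩ : ∃ l : ℝ, l = Real.logb 2 u := ⟨_, rfl⟩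
  have hl1 : 1 ≤ l := by
    rw [hlog, Real.le_logb_iff_rpow_le (by norm_num) hu0, Real.rpow_one]
    exact hu2
  have hul : (2 : ℝ) ^ l = u := by
    rw [hlog]
    exact Real.rpow_logb (by norm_num) (by norm_num) hu0
  obtain ⟨h, hh⟩ : ∃ h : ℕ, h = ⌈23 * l⌉₊ := ⟨_, rfl⟩
  have hh1 : 23 * l ≤ h := by
    rw [hh]
    exact Nat.le_ceil _
  have hh2 : (h : ℝ) ≤ 24 * l := by
    have := Nat.ceil_lt_add_one (show (0 : ℝ) ≤ 23 * l by linarith)
    rw [← hh] at this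
    linarith
  have hh0 : 1 ≤ h := by
    have : (1 : ℝ) ≤ h := by linarith
    exact_mod_cast this
  have hKle : (2 : ℝ) ^ 23 / (α / K) ^ 20 ≤ 2 ^ h := by
    have e1 : (2 : ℝ) ^ 23 / (α / K) ^ 20 = 2 ^ 3 * u ^ 20 := by
      rw [hγu]
      field_simp
      try norm_num
    have e2 : (2 : ℝ) ^ 3 * u ^ 20 ≤ u ^ 23 := by
      calc (2 : ℝ) ^ 3 * u ^ 20 ≤ u ^ 3 * u ^ 20 :=
            mul_le_mul_of_nonneg_right (pow_le_pow_left₀ (by norm_num) hu2 3) (by positivity)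
        _ = u ^ 23 := by ring
    have e3 : u ^ 23 = (2 : ℝ) ^ (l * 23) := by
      rw [Real.rpow_mul (by norm_num), hul]
      exact_mod_cast (Real.rpow_natCast u 23).symm
    have e4 : (2 : ℝ) ^ (l * 23) ≤ (2 : ℝ) ^ h := by
      rw [← Real.rpow_natCast]
      exact Real.rpow_le_rpow_of_exponent_le (by norm_num) (by linarith)
    rw [e1]
    exact e2.trans (e3.le.trans e4)
  obtain ⟨p, v, T, hTV, hTne, hTl, hT⟩ := h1 V (2 ^ 23 / (α / K) ^ 20) h hVne hKV hKle hh0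
  obtain ⟨L1, hL1d, hL1⟩ := h3 P (a i) p v T (hTV.trans hV) hTl
  refine ⟨L1, hL1d, ?_⟩
  have hL1' : (T.card : ℝ) ≤ (((P : Set (ℝ × ℝ)) ∩ (L1 : Set (ℝ × ℝ))).ncard : ℝ) := by
    exact_mod_cast hL1
  have hT1 : (1 : ℝ) ≤ T.card := by exact_mod_cast hTne.card_pos
  have hnv : (P.card : ℝ) ≤ u ^ 2 * V.card := by
    rw [hγu] at hVcard
    have e1 : (2 / u) ^ 2 / 4 * (P.card : ℝ) = P.card / u ^ 2 := by
      field_simp
      try norm_num
    rw [e1, div_le_iff₀ (by positivity)] at hVcard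
    linarith
  have key := Uni_num (n := (P.card : ℝ)) hu2 hlog hh2 hT1 (Nat.cast_nonneg _) hnv hT
  rw [← hu, ← hlog]
  exact key.trans (mul_le_mul_of_nonneg_left hL1' (by positivity))

end Pool.Agent.SAN
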